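import Pool.Agent.H17.UN.Fin

/-!
# MP_8b378c_ag: from the working definitions to the final ones
-/

set_option autoImplicit false

namespace Pool.Agent.H17.UF

open Pool.Agent.H17.UN (Variety StablyRational Geo Fb CounterexampleProj)

section

variable {K L : Type} [Field K] [Field L] [Algebra K L] {F : IntermediateField K L}

theorem mem_FB (Kb : IntermediateField K L) (x : L) : x ∈ FB F.val Kb ↔ x ∈ Fb F Kb := by
  unfold FB
  rw [IntermediateField.fieldRange_val]
  have h := IntermediateField.restrictScalars_adjoin_eq_sup K Kb (F : Set L)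
  rw [IntermediateField.adjoin_self] at h
  rw [← h]
  exact IntermediateField.mem_restrictScalars K

theorem mem_chart (X : Variety K F) (Kb : IntermediateField K L) (i : Fin X.n) (x : L) :
    x ∈ chart X F.val Kb i ↔ ∃ h : x ∈ Fb F Kb, (⟨x, h⟩ : Fb F Kb) ∈ X.base Kb i := by
  constructor
  · intro hx
    have hle : chart X F.val Kb i ≤ ((X.base Kb i).restrictScalars K).map
        ((Fb F Kb).val.restrictScalars K) := by
      refine sup_le ?_ ?_
      · intro c hc
        refine Subalgebra.mem_map.2 ⟨algebraMap Kb (Fb F Kb) ⟨c, hc⟩, ?_, rfl⟩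
        exact (X.base Kb i).algebraMap_mem ⟨c, hc⟩
      · rintro _ ⟨b, hb, rfl⟩
        refine Subalgebra.mem_map.2 ⟨⟨(b : L), IntermediateField.subset_adjoin _ _ b.2⟩, ?_, rfl⟩
        exact Algebra.subset_adjoin ⟨b, hb, rfl⟩
    obtain ⟨y, hy, rfl⟩ := Subalgebra.mem_map.1 (hle hx)
    exact ⟨y.2, hy⟩
  · rintro ⟨h, hx⟩
    have key : ∀ y ∈ X.base Kb i, (y : L) ∈ chart X F.val Kb i := by
      intro y hy
      refine Algebra.adjoin_induction (p := fun (y : Fb F Kb) _ => (y : L) ∈ chart X F.val Kb i)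
        ?_ ?_ ?_ ?_ hy
      · rintro y ⟨b, hb, hyb⟩
        rw [hyb]
        exact (le_sup_right : (X.A i).map F.val ≤ Kb.toSubalgebra ⊔ (X.A i).map F.val)
          ⟨b, hb, rfl⟩
      · intro c
        exact (le_sup_left : Kb.toSubalgebra ≤ Kb.toSubalgebra ⊔ (X.A i).map F.val) c.2
      · intro a b _ _ ha hb
        exact add_mem ha hb
      · intro a b _ _ ha hb
        exact mul_mem ha hb
    exact key _ hx

theorem old_ext {X : Variety K F} {Kb : IntermediateField K L}
    {v v' : Pool.Agent.H17.UN.PrimeDivisor (X.base Kb)} (h : ∀ y, v.ord y = v'.ord y) :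
    v = v' := by
  obtain ⟨o, _, _, _, _, _⟩ := v
  obtain ⟨o', _, _, _, _, _⟩ := v'
  have : o = o' := funext h
  subst this
  rfl

theorem new_ext {X : Variety K F} {Kb : IntermediateField K L}
    {v v' : PrimeDivisor X F.val Kb} (h : ∀ y, v.ord y = v'.ord y) : v = v' := by
  obtain ⟨o, _, _, _, _, _, _⟩ := v
  obtain ⟨o', _, _, _, _, _, _⟩ := v'
  have : o = o' := funext h
  subst this
  rfl

/-- The restriction to the function field. -/
def toOld {X : Variety K F} {Kb : IntermediateField K L} (w : PrimeDivisor X F.val Kb) :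
    Pool.Agent.H17.UN.PrimeDivisor (X.base Kb) where
  ord y := w.ord (y : L)
  ord_zero := w.zero
  ord_mul a b ha hb := w.mul a ((mem_FB Kb _).2 a.2) b ((mem_FB Kb _).2 b.2)
    (fun h => ha (Subtype.ext h)) (fun h => hb (Subtype.ext h))
  ord_add a b ha hb hab := w.add a ((mem_FB Kb _).2 a.2) b ((mem_FB Kb _).2 b.2)
    (fun h => ha (Subtype.ext h)) (fun h => hb (Subtype.ext h)) (fun h => hab (Subtype.ext h))
  norm := by
    obtain ⟨a, ha⟩ := w.norm
    have h1 : a ∈ Fb F Kb := by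
      by_contra h
      rw [w.out a (fun h' => h ((mem_FB Kb a).1 h'))] at ha
      omega
    exact ⟨⟨a, h1⟩, ha⟩
  centre := by
    obtain ⟨i, h1, h2⟩ := w.centre
    refine ⟨i, fun a ha => h1 a ((mem_chart X Kb i a).2 ⟨a.2, ha⟩), fun x hx0 hx => ?_⟩
    obtain ⟨a, ha, b, hb, hb0, hob, hxab⟩ := h2 x ((mem_FB Kb _).2 x.2)
      (fun h => hx0 (Subtype.ext h)) hx
    obtain ⟨ha', ha⟩ := (mem_chart X Kb i a).1 ha
    obtain ⟨hb', hb⟩ := (mem_chart X Kb i b).1 hb
    exact ⟨⟨a, ha'⟩, ha, ⟨b, hb'⟩, hb, fun h => hb0 (congrArg Subtype.val h), hob,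
      Subtype.ext hxab⟩

open Classical in
/-- The extension by zero. -/
noncomputable def toNew {X : Variety K F} {Kb : IntermediateField K L}
    (v : Pool.Agent.H17.UN.PrimeDivisor (X.base Kb)) : PrimeDivisor X F.val Kb where
  ord x := if h : x ∈ Fb F Kb then v.ord ⟨x, h⟩ else 0
  out a ha := dif_neg fun h => ha ((mem_FB Kb a).2 h)
  zero := by
    rw [dif_pos (zero_mem (Fb F Kb))]
    exact v.ord_zero
  mul a ha b hb ha0 hb0 := by
    rw [mem_FB] at ha hb
    rw [dif_pos ha, dif_pos hb, dif_pos (mul_mem ha hb)]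
    exact v.ord_mul ⟨a, ha⟩ ⟨b, hb⟩ (fun h => ha0 (congrArg Subtype.val h))
      (fun h => hb0 (congrArg Subtype.val h))
  add a ha b hb ha0 hb0 hab := by
    rw [mem_FB] at ha hb
    rw [dif_pos ha, dif_pos hb, dif_pos (add_mem ha hb)]
    exact v.ord_add ⟨a, ha⟩ ⟨b, hb⟩ (fun h => ha0 (congrArg Subtype.val h))
      (fun h => hb0 (congrArg Subtype.val h)) (fun h => hab (congrArg Subtype.val h))
  norm := by
    obtain ⟨a, ha⟩ := v.norm
    exact ⟨a, by rw [dif_pos a.2]; exact ha⟩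
  centre := by
    obtain ⟨i, h1, h2⟩ := v.centre
    refine ⟨i, fun a ha => ?_, fun x hx hx0 hox => ?_⟩
    · obtain ⟨ha', ha⟩ := (mem_chart X Kb i a).1 ha
      rw [dif_pos ha']
      exact h1 _ ha
    · rw [mem_FB] at hx
      rw [dif_pos hx] at hox
      obtain ⟨a, ha, b, hb, hb0, hob, hxab⟩ := h2 ⟨x, hx⟩
        (fun h => hx0 (congrArg Subtype.val h)) hox
      refine ⟨a, (mem_chart X Kb i a).2 ⟨a.2, ha⟩, b, (mem_chart X Kb i b).2 ⟨b.2, hb⟩,
        fun h => hb0 (Subtype.ext h), ?_, congrArg Subtype.val hxab⟩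
      rw [dif_pos b.2]
      exact hob

theorem toNew_ord {X : Variety K F} {Kb : IntermediateField K L}
    (v : Pool.Agent.H17.UN.PrimeDivisor (X.base Kb)) (x : Fb F Kb) :
    (toNew v).ord (x : L) = v.ord x := by
  exact dif_pos x.2

theorem toOld_toNew {X : Variety K F} {Kb : IntermediateField K L}
    (v : Pool.Agent.H17.UN.PrimeDivisor (X.base Kb)) : toOld (toNew v) = v :=
  old_ext fun y => toNew_ord v y

theorem toNew_toOld {X : Variety K F} {Kb : IntermediateField K L}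
    (w : PrimeDivisor X F.val Kb) : toNew (toOld w) = w := by
  refine new_ext fun x => ?_
  by_cases h : x ∈ Fb F Kb
  · exact toNew_ord (toOld w) ⟨x, h⟩
  · rw [w.out x (fun h' => h ((mem_FB Kb x).1 h')),
      (toNew (toOld w)).out x (fun h' => h ((mem_FB Kb x).1 h'))]

theorem meets_iff {X : Variety K F} {Kb : IntermediateField K L}
    (w : PrimeDivisor X F.val Kb) (i : Fin X.n) : w.Meets i ↔ (toOld w).Meets i := by
  constructor
  · intro h a ha
    exact h a ((mem_chart X Kb i a).2 ⟨a.2, ha⟩)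
  · intro h a ha
    obtain ⟨ha', ha⟩ := (mem_chart X Kb i a).1 ha
    exact h _ ha

open Classical in
/-- The divisor of a semi-invariant function. -/
noncomputable def dvn {X : Variety K F} {Kb Ω : IntermediateField K L}
    (T : Pool.Agent.H17.UN.UniversalTorsor X Kb Ω) (x : L) (w : PrimeDivisor X F.val Kb) : ℤ :=
  if h : ∃ e : T.E, ((e : Lˣ) : L) = x then (T.dv h.choose).toAdd (toOld w) else 0

theorem dvn_eq {X : Variety K F} {Kb Ω : IntermediateField K L}
    (T : Pool.Agent.H17.UN.UniversalTorsor X Kb Ω) (e : T.E) (w : PrimeDivisor X F.val Kb) :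
    dvn T ((e : Lˣ) : L) w = (T.dv e).toAdd (toOld w) := by
  have h : ∃ e' : T.E, ((e' : Lˣ) : L) = ((e : Lˣ) : L) := ⟨e, rfl⟩
  unfold dvn
  rw [dif_pos h]
  have h1 : h.choose = e := Subtype.ext (Units.ext h.choose_spec)
  rw [h1]

/-- The torsor in the final form. -/
noncomputable def conv {X : Variety K F} {Kb Ω : IntermediateField K L}
    (T : Pool.Agent.H17.UN.UniversalTorsor X Kb Ω) : UniversalTorsor X F.val Kb Ω where
  E := (fun e : Lˣ => (e : L)) '' (T.E : Set Lˣ)
  dv := dvn T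
  le x := T.le x.2
  zero := by
    rintro ⟨e, -, he⟩
    exact e.ne_zero he
  mul := by
    rintro _ ⟨e, he, rfl⟩ _ ⟨e', he', rfl⟩
    exact ⟨e * e', T.E.mul_mem he he', Units.val_mul e e'⟩
  inv := by
    rintro _ ⟨e, he, rfl⟩
    exact ⟨e⁻¹, T.E.inv_mem he, Units.val_inv_eq_inv_val e⟩
  mem f hf hf0 := ⟨Units.mk0 f hf0, T.mem _ ((mem_FB Kb f).1 hf), rfl⟩
  gal := by
    rintro σ ⟨τ, hτ⟩ _ ⟨e, he, rfl⟩
    exact ⟨Units.map (τ : L →* L) e, T.gal τ e he, (hτ _).symm⟩
  dv_fin := by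
    rintro _ ⟨e, he, rfl⟩
    have h1 : {w | dvn T (e : L) w ≠ 0} = toOld ⁻¹' (((T.dv ⟨e, he⟩).toAdd).support : Set _) := by
      ext w
      rw [Set.mem_ofPred_eq, dvn_eq T ⟨e, he⟩ w, Set.mem_preimage, Finset.mem_coe,
        Finsupp.mem_support_iff]
    show {w | dvn T (e : L) w ≠ 0}.Finite
    rw [h1]
    refine Set.Finite.preimage (fun w _ w' _ h => ?_) (Finset.finite_toSet _)
    rw [← toNew_toOld w, h, toNew_toOld]
  dv_mul := by
    rintro _ ⟨e, he, rfl⟩ _ ⟨e', he', rfl⟩ w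
    have h1 := dvn_eq T (⟨e, he⟩ * ⟨e', he'⟩) w
    have h2 : (((⟨e, he⟩ * ⟨e', he'⟩ : T.E) : Lˣ) : L) = (e : L) * (e' : L) := Units.val_mul e e'
    rw [h2, map_mul] at h1
    show dvn T ((e : L) * (e' : L)) w = dvn T (e : L) w + dvn T (e' : L) w
    rw [h1, dvn_eq T ⟨e, he⟩ w, dvn_eq T ⟨e', he'⟩ w]
    rfl
  dv_fun := by
    intro f hf hf0 w
    have hf' := (mem_FB Kb f).1 hf
    have h1 := dvn_eq T ⟨Units.mk0 f hf0, T.mem _ hf'⟩ w
    have h2 := T.dv_fun ⟨Units.mk0 f hf0, T.mem _ hf'⟩ hf' (toOld w)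
    exact h1.trans h2
  dv_ker := by
    rintro _ ⟨e, he, rfl⟩ h
    refine T.dv_ker ⟨e, he⟩ ?_
    refine Multiplicative.toAdd.injective (Finsupp.ext fun v => ?_)
    have h1 := h (toNew v)
    have h2 := dvn_eq T ⟨e, he⟩ (toNew v)
    rw [toOld_toNew] at h2
    exact h2.symm.trans h1
  dv_sur := by
    intro D hD
    have hfin : (Function.support fun v => D (toNew v)).Finite := by
      have h1 : (Function.support fun v => D (toNew v)) = toNew ⁻¹' {v | D v ≠ 0} := rfl
      rw [h1]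
      refine Set.Finite.preimage (fun w _ w' _ h => ?_) hD
      rw [← toOld_toNew w, h, toOld_toNew]
    obtain ⟨e, he⟩ := T.dv_sur (Multiplicative.ofAdd (Finsupp.ofSupportFinite _ hfin))
    refine ⟨((e : Lˣ) : L), ⟨e, e.2, rfl⟩, fun w => ?_⟩
    rw [dvn_eq T e w, he]
    show D (toNew (toOld w)) = D w
    rw [toNew_toOld]
  dv_gal := by
    rintro σ ⟨τ, hτ⟩ v v' h _ ⟨e, he, rfl⟩
    have h1 := T.dv_gal τ (toOld v) (toOld v') (fun x y hxy => by
      have h2 := h x ((mem_FB Kb _).2 x.2)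
      rw [hτ, ← hxy] at h2
      exact h2) ⟨e, he⟩ ⟨Units.map (τ : L →* L) e, T.gal τ e he⟩ rfl
    have h3 := dvn_eq T ⟨Units.map (τ : L →* L) e, T.gal τ e he⟩ v'
    have h4 := dvn_eq T ⟨e, he⟩ v
    show dvn T (σ (e : L)) v' = dvn T (e : L) v
    rw [hτ]
    exact h3.trans (h1.trans h4.symm)
  ind := by
    classical
    intro s c hs hd hsum e he
    have hs0 : ∀ e ∈ s, e ≠ 0 := by
      intro e he h0
      obtain ⟨⟨e', -, h1⟩, -⟩ := hs e he
      exact e'.ne_zero (h1.trans h0)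
    obtain ⟨u, hu⟩ : ∃ u : L → Lˣ, ∀ x, x ≠ 0 → (u x : L) = x :=
      ⟨fun x => if h : x ≠ 0 then Units.mk0 x h else 1, fun x hx => by
        show ((if h : x ≠ 0 then Units.mk0 x h else 1 : Lˣ) : L) = x
        rw [dif_pos hx]
        rfl⟩
    have huE : ∀ x ∈ s, u x ∈ T.E := by
      intro x hx
      obtain ⟨⟨e', he', h1⟩, -⟩ := hs x hx
      have h2 : u x = e' := Units.ext ((hu x (hs0 x hx)).trans h1.symm)
      rw [h2]
      exact he'
    have hinj : Set.InjOn u (s : Set L) := by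
      intro x hx y hy hxy
      rw [← hu x (hs0 x hx), ← hu y (hs0 y hy), hxy]
    have hli := T.ind (s.image u)
      (fun e he => by
        obtain ⟨x, hx, rfl⟩ := Finset.mem_image.1 he
        exact huE x hx)
      (fun e he e' he' hne => by
        obtain ⟨x, hx, rfl⟩ := Finset.mem_image.1 he
        obtain ⟨y, hy, rfl⟩ := Finset.mem_image.1 he'
        intro h
        refine hd x hx y hy (fun hxy => hne (by rw [hxy])) ?_
        rw [mem_FB]
        rwa [Units.val_div_eq_div_val, hu x (hs0 x hx), hu y (hs0 y hy)] at h)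
    have hcm : ∀ i : (s.image u : Finset Lˣ), c ((i : Lˣ) : L) ∈ Fb F Kb := by
      rintro ⟨i, hi⟩
      obtain ⟨x, hx, rfl⟩ := Finset.mem_image.1 hi
      show c ((u x : Lˣ) : L) ∈ Fb F Kb
      rw [hu x (hs0 x hx)]
      exact (mem_FB Kb _).1 (hs x hx).2
    have h5 := Fintype.linearIndependent_iff.1 hli (fun i => ⟨c ((i : Lˣ) : L), hcm i⟩) (by
      have h6 : ∀ i : (s.image u : Finset Lˣ), (⟨c ((i : Lˣ) : L), hcm i⟩ : Fb F Kb) •
          (((i : Lˣ) : L)) = (fun e : Lˣ => c (e : L) * (e : L)) i := fun i => rfl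
      rw [Finset.sum_congr rfl (fun i _ => h6 i),
        Finset.sum_coe_sort (s.image u) (fun e : Lˣ => c (e : L) * (e : L)),
        Finset.sum_image hinj, ← hsum]
      exact Finset.sum_congr rfl fun x hx => by rw [hu x (hs0 x hx)])
      ⟨u e, Finset.mem_image_of_mem u he⟩
    have h7 := congrArg Subtype.val h5
    have h8 : c ((u e : Lˣ) : L) = 0 := h7
    rwa [hu e (hs0 e he)] at h8
  gen := T.gen

theorem conv_point {X : Variety K F} {Kb Ω : IntermediateField K L}
    (T : Pool.Agent.H17.UN.UniversalTorsor X Kb Ω) (h : T.HasPoint) : (conv T).HasPoint := by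
  obtain ⟨i, hi⟩ := h
  refine ⟨i, ?_⟩
  have hR : (conv T).R i = T.R i := by
    unfold UniversalTorsor.R Pool.Agent.H17.UN.UniversalTorsor.R
      Pool.Agent.H17.UN.UniversalTorsor.Rb
    have h1 : {e | e ∈ (conv T).E ∧ ∀ v : PrimeDivisor X F.val Kb, v.Meets i →
        0 ≤ (conv T).dv e v} = {x | ∃ e : T.E, x = ((e : Lˣ) : L) ∧
        ∀ v : Pool.Agent.H17.UN.PrimeDivisor (X.base Kb), v.Meets i →
          0 ≤ (T.dv e).toAdd v} := by
      ext x
      constructor
      · rintro ⟨⟨e, he, rfl⟩, h2⟩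
        refine ⟨⟨e, he⟩, rfl, fun v hv => ?_⟩
        have h3 := h2 (toNew v) ((meets_iff (toNew v) i).2 (by rw [toOld_toNew]; exact hv))
        have h4 := dvn_eq T ⟨e, he⟩ (toNew v)
        rw [toOld_toNew] at h4
        rw [← h4]
        exact h3
      · rintro ⟨e, rfl, h2⟩
        refine ⟨⟨e, e.2, rfl⟩, fun w hw => ?_⟩
        show 0 ≤ dvn T ((e : Lˣ) : L) w
        rw [dvn_eq T e w]
        exact h2 _ ((meets_iff w i).1 hw)
    rw [h1]
  rw [hR]
  exact hi

theorem conv_rat (Kb : IntermediateField K L)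
    (h : ∃ a b : Fb F Kb, AlgebraicIndependent Kb ![a, b] ∧
      IntermediateField.adjoin Kb {a, b} = ⊤) : GeomRational F.val Kb := by
  obtain ⟨a, b, h1, h2⟩ := h
  refine ⟨a, b, ?_, ?_⟩
  · have h3 := h1.map' (f := (Fb F Kb).val) (Fb F Kb).val.toRingHom.injective
    have h4 : (Fb F Kb).val ∘ ![a, b] = ![(a : L), (b : L)] := by
      funext i
      fin_cases i <;> rfl
    rw [h4] at h3
    exact h3
  · have h3 := congrArg (IntermediateField.map (Fb F Kb).val) h2
    rw [IntermediateField.adjoin_map, ← AlgHom.fieldRange_eq_map,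
      IntermediateField.fieldRange_val, Set.image_pair] at h3
    have h4 := IntermediateField.restrictScalars_adjoin_eq_sup K Kb ({(a : L), (b : L)} : Set L)
    rw [← h4]
    ext x
    rw [mem_FB, IntermediateField.mem_restrictScalars]
    have h5 : IntermediateField.adjoin Kb ({(a : L), (b : L)} : Set L) = Fb F Kb := h3
    rw [h5]

end

/-- The working form implies the final form. -/
theorem neg_of {K : Type} [Field K] (h : CounterexampleProj K) : NegatedQ2 K := by
  obtain ⟨L, _, _, F, Kb, Ω, X, T, h1, h2, h3, h4, h5, h6, h7⟩ := h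
  exact ⟨F, L, inferInstance, inferInstance, inferInstance, inferInstance, F.val, Kb, Ω, X,
    conv T, h1, h2, h3, h4, conv_rat Kb h5, conv_point T h6, h7⟩

end Pool.Agent.H17.UF
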