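import Pool.Agent.H17.UN.AllT
import Pool.Agent.H17.UN.FinB
import Pool.Agent.H62.UN.Closed

/-!
# MP_8b378c_ag: a universal torsor with a rational point which is not stably rational
-/

set_option autoImplicit false

namespace Pool.Agent.H17.UN

/-- Over `K = ℚ(x, y, z, t)` there is a rational surface with a universal torsor which has a
`K`-point and is not stably rational over `K`. -/
theorem final : ∃ (K : Type) (_ : Field K) (_ : Algebra ℚ K) (x y z t : K),
    AlgebraicIndependent ℚ ![x, y, z, t] ∧ IntermediateField.adjoin ℚ {x, y, z, t} = ⊤ ∧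
    CounterexampleProj K := final_of Pool.Agent.H62.UN.geom

/-- The same with the final form of the definitions. -/
theorem final_uf : ∃ (K : Type) (_ : Field K) (_ : Algebra ℚ K) (x y z t : K),
    AlgebraicIndependent ℚ ![x, y, z, t] ∧ IntermediateField.adjoin ℚ {x, y, z, t} = ⊤ ∧
    Pool.Agent.H17.UF.NegatedQ2 K := by
  obtain ⟨K, i1, i2, x, y, z, t, h1, h2, h3⟩ := final
  exact ⟨K, i1, i2, x, y, z, t, h1, h2, Pool.Agent.H17.UF.neg_of h3⟩

end Pool.Agent.H17.UN
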