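import Pool.Agent.H17.UN.Asm
import Pool.Agent.H12.UT.Fin3

/-!
# MP_8b378c_ag: from the conic bundle to the data, and the function field of the equations
-/

set_option autoImplicit false

namespace Pool.Agent.H17.UN

open Polynomial

/-- the enumeration of the roots -/
theorem dat_of {K : Type} [Field K] [CharZero K] (P Q : K[X])
    (h : Pool.Agent.H12.UT.ConicBundle P Q 1) :
    ∃ (e c : Fin 5 → K) (c' p0 : K), Dat P Q e c c' p0 := by
  classical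
  have hP0 : P ≠ 0 := fun h0 => by
    have := h.degP
    rw [h0, natDegree_zero] at this
    omega
  have hQ0 : Q ≠ 0 := fun h0 => by
    have := h.degQ
    rw [h0, natDegree_zero] at this
    omega
  have hPQ : P * Q ≠ 0 := mul_ne_zero hP0 hQ0
  have hdeg : (P * Q).natDegree = 5 := by
    rw [natDegree_mul hP0 hQ0, h.degP, h.degQ]
  have hcard : (P * Q).roots.card = 5 := by
    rw [← hdeg]
    exact (h.split.natDegree_eq_card_roots).symm
  have hnd : (P * Q).roots.Nodup := nodup_roots h.sep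
  have hfc : (P * Q).roots.toFinset.card = 5 := by
    rw [Multiset.toFinset_card_of_nodup hnd, hcard]
  obtain ⟨y0, hy0, hy⟩ := h.point
  have ε := (P * Q).roots.toFinset.equivFinOfCardEq hfc
  have hroot : ∀ i, (P * Q).IsRoot (ε.symm i : K) := fun i => by
    have := (ε.symm i).2
    rw [Multiset.mem_toFinset, mem_roots hPQ] at this
    exact this
  have hor : ∀ i, P.eval (ε.symm i : K) = 0 ∨ Q.eval (ε.symm i : K) = 0 := fun i => by
    have := hroot i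
    rw [IsRoot.def, eval_mul, mul_eq_zero] at this
    exact this
  refine ⟨fun i => (ε.symm i : K), fun i => if P.eval (ε.symm i : K) = 0 then
    Q.eval (ε.symm i : K) else P.eval (ε.symm i : K), Q.leadingCoeff, y0, h.degP, h.degQ, h.sep,
    fun i => ?_, fun i j hij => ε.symm.injective (Subtype.ext hij), fun i hi => ?_, rfl, hy, hy0⟩
  · by_cases h1 : P.eval (ε.symm i : K) = 0
    · left
      exact ⟨h1, if_pos h1⟩
    · right
      exact ⟨(hor i).resolve_left h1, if_neg h1⟩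
  · rcases hor i with h1 | h1
    · rw [hi] at h1
      rw [h1] at hy
      exact hy0 (pow_eq_zero_iff (two_ne_zero) |>.1 hy)
    · rw [hi] at h1
      refine h.resQ 1 h1 ⟨y0, ?_⟩
      rw [← hy, sq]

/-- TRD9 -/
theorem trd9 {K L : Type} [Field K] [CharZero K] [Field L] [Algebra K L] (P Q : K[X])
    (e c : Fin 5 → K) (c' p0 : K) (F Kb Ω0 Ω : IntermediateField K L) (s y z v : L)
    (X Y : Fin 5 → L) (X' Y' w : L) (hD : Dat P Q e c c' p0)
    (hT : Tow P Q e c c' F Kb Ω0 Ω s y z v X Y X' Y' w) : Algebra.trdeg K Ω0 = 9 := by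
  obtain ⟨xs, hxs⟩ : ∃ xs : Fin 9 → L, xs = ![s, z, v, Y 0, Y 1, Y 2, Y 3, Y 4, Y'] := ⟨_, rfl⟩
  have hind : AlgebraicIndependent K xs := by
    have h1 := hT.ind.comp (Fin.castSucc : Fin 9 → Fin 10) (Fin.castSucc_injective 9)
    have h2 : (![s, z, v, Y 0, Y 1, Y 2, Y 3, Y 4, Y', w] : Fin 10 → L) ∘
        (Fin.castSucc : Fin 9 → Fin 10) = xs := by
      rw [hxs]
      funext j
      fin_cases j <;> rfl
    rwa [h2] at h1
  have hs : ∀ x : L, x ∈ ({s, y, z, v, X', Y'} ∪ (Set.range X ∪ Set.range Y) : Set L) →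
      x ∈ Ω0 := fun x hx => by
    rw [hT.hΩ0]
    exact IntermediateField.subset_adjoin _ _ hx
  have h1 : s ∈ Ω0 := hs s (Or.inl (by simp))
  have h2 : y ∈ Ω0 := hs y (Or.inl (by simp))
  have h3 : z ∈ Ω0 := hs z (Or.inl (by simp))
  have h4 : v ∈ Ω0 := hs v (Or.inl (by simp))
  have h5 : X' ∈ Ω0 := hs X' (Or.inl (by simp))
  have h6 : Y' ∈ Ω0 := hs Y' (Or.inl (by simp))
  have h7 : ∀ i, X i ∈ Ω0 := fun i => hs _ (Or.inr (Or.inl ⟨i, rfl⟩))
  have h8 : ∀ i, Y i ∈ Ω0 := fun i => hs _ (Or.inr (Or.inr ⟨i, rfl⟩))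
  have hx0 : ∀ j, xs j ∈ Ω0 := by
    intro j
    rw [hxs]
    fin_cases j
    · exact h1
    · exact h3
    · exact h4
    · exact h8 0
    · exact h8 1
    · exact h8 2
    · exact h8 3
    · exact h8 4
    · exact h6
  obtain ⟨x, hx⟩ : ∃ x : Fin 9 → Ω0, ∀ j, (x j : L) = xs j := ⟨fun j => ⟨xs j, hx0 j⟩, fun _ => rfl⟩
  have hind' : AlgebraicIndependent K x := by
    refine AlgebraicIndependent.of_comp Ω0.val ?_
    have h9 : (Ω0.val ∘ x : Fin 9 → L) = xs := by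
      funext j
      exact hx j
    rw [h9]
    exact hind
  obtain ⟨S, hS⟩ : ∃ S : Set Ω0, S = {⟨y, h2⟩, ⟨X', h5⟩} ∪ Set.range (fun i => (⟨X i, h7 i⟩ : Ω0)) :=
    ⟨_, rfl⟩
  obtain ⟨N, hN⟩ : ∃ N : IntermediateField K Ω0, N = IntermediateField.adjoin K (Set.range x) :=
    ⟨_, rfl⟩
  have hxN : ∀ j, x j ∈ N := fun j => by
    rw [hN]
    exact IntermediateField.subset_adjoin _ _ ⟨j, rfl⟩
  have e1 : (⟨s, h1⟩ : Ω0) ∈ N := by
    have : (⟨s, h1⟩ : Ω0) = x 0 := Subtype.ext (by rw [hx, hxs]; rfl)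
    rw [this]; exact hxN 0
  have e3 : (⟨z, h3⟩ : Ω0) ∈ N := by
    have : (⟨z, h3⟩ : Ω0) = x 1 := Subtype.ext (by rw [hx, hxs]; rfl)
    rw [this]; exact hxN 1
  have e4 : (⟨v, h4⟩ : Ω0) ∈ N := by
    have : (⟨v, h4⟩ : Ω0) = x 2 := Subtype.ext (by rw [hx, hxs]; rfl)
    rw [this]; exact hxN 2
  have e8 : ∀ i, (⟨Y i, h8 i⟩ : Ω0) ∈ N := by
    intro i
    fin_cases i
    · have : (⟨Y 0, h8 0⟩ : Ω0) = x 3 := Subtype.ext (by rw [hx, hxs]; rfl)
      exact this ▸ hxN 3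
    · have : (⟨Y 1, h8 1⟩ : Ω0) = x 4 := Subtype.ext (by rw [hx, hxs]; rfl)
      exact this ▸ hxN 4
    · have : (⟨Y 2, h8 2⟩ : Ω0) = x 5 := Subtype.ext (by rw [hx, hxs]; rfl)
      exact this ▸ hxN 5
    · have : (⟨Y 3, h8 3⟩ : Ω0) = x 6 := Subtype.ext (by rw [hx, hxs]; rfl)
      exact this ▸ hxN 6
    · have : (⟨Y 4, h8 4⟩ : Ω0) = x 7 := Subtype.ext (by rw [hx, hxs]; rfl)
      exact this ▸ hxN 7
  have e6 : (⟨Y', h6⟩ : Ω0) ∈ N := by
    have : (⟨Y', h6⟩ : Ω0) = x 8 := Subtype.ext (by rw [hx, hxs]; rfl)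
    rw [this]; exact hxN 8
  have hae : ∀ R : K[X], ((aeval (⟨s, h1⟩ : Ω0) R : Ω0) : L) = aeval s R := fun R =>
    (Polynomial.aeval_algHom_apply Ω0.val (⟨s, h1⟩ : Ω0) R).symm
  have haN : ∀ R : K[X], (aeval (⟨s, h1⟩ : Ω0) R : Ω0) ∈ N := fun R => by
    have h9 : (aeval (⟨s, h1⟩ : Ω0) R : Ω0) = ((aeval (⟨⟨s, h1⟩, e1⟩ : N) R : N) : Ω0) :=
      (Polynomial.aeval_algHom_apply N.val (⟨⟨s, h1⟩, e1⟩ : N) R)
    rw [h9]
    exact (aeval (⟨⟨s, h1⟩, e1⟩ : N) R).2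
  have hsq : ∀ u ∈ S, u ^ 2 ∈ IntermediateField.adjoin K (Set.range x) := by
    rw [← hN, hS]
    rintro u ((rfl | rfl) | ⟨i, rfl⟩)
    · have h9 : (⟨y, h2⟩ : Ω0) ^ 2 = aeval (⟨s, h1⟩ : Ω0) P + aeval (⟨s, h1⟩ : Ω0) Q *
          ⟨z, h3⟩ ^ 2 := by
        refine Subtype.ext ?_
        show y ^ 2 = ((aeval (⟨s, h1⟩ : Ω0) P : Ω0) : L) + ((aeval (⟨s, h1⟩ : Ω0) Q : Ω0) : L) *
          z ^ 2
        rw [hae, hae]
        exact hT.con
      rw [h9]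
      exact N.add_mem (haN P) (N.mul_mem (haN Q) (pow_mem e3 2))
    · have h9 : (⟨X', h5⟩ : Ω0) ^ 2 = ⟨v, h4⟩ + algebraMap K Ω0 c' * ⟨Y', h6⟩ ^ 2 := by
        refine Subtype.ext ?_
        show X' ^ 2 = v + algebraMap K L c' * Y' ^ 2
        rw [hT.inf]
        ring
      rw [h9]
      exact N.add_mem e4 (N.mul_mem (N.algebraMap_mem _) (pow_mem e6 2))
    · have hne : algebraMap K L (1 - e i) ≠ 0 := by
        rw [Ne, map_eq_zero, sub_eq_zero]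
        exact fun h => hD.one i h.symm
      have h9 : (⟨X i, h7 i⟩ : Ω0) ^ 2 = (⟨s, h1⟩ * ⟨v, h4⟩ - algebraMap K Ω0 (e i) * ⟨v, h4⟩) /
          algebraMap K Ω0 (1 - e i) + algebraMap K Ω0 (c i) * ⟨Y i, h8 i⟩ ^ 2 := by
        refine Subtype.ext ?_
        show X i ^ 2 = (s * v - algebraMap K L (e i) * v) / algebraMap K L (1 - e i) +
          algebraMap K L (c i) * Y i ^ 2
        rw [hT.eqs i, mul_div_cancel_left₀ _ hne]
        ring
      show (⟨X i, h7 i⟩ : Ω0) ^ 2 ∈ N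
      rw [h9]
      exact N.add_mem (N.div_mem (N.sub_mem (N.mul_mem e1 e4) (N.mul_mem (N.algebraMap_mem _) e4))
        (N.algebraMap_mem _)) (N.mul_mem (N.algebraMap_mem _) (pow_mem (e8 i) 2))
  have hgen : IntermediateField.adjoin K (Set.range x ∪ S) = ⊤ := by
    obtain ⟨M, hM⟩ : ∃ M : IntermediateField K Ω0, M = IntermediateField.adjoin K
      (Set.range x ∪ S) := ⟨_, rfl⟩
    rw [← hM]
    have hNM : N ≤ M := by
      rw [hN, hM]
      exact IntermediateField.adjoin.mono _ _ _ Set.subset_union_left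
    have hSM : ∀ u ∈ S, u ∈ M := fun u hu => by
      rw [hM]
      exact IntermediateField.subset_adjoin _ _ (Or.inr hu)
    have hle : Ω0 ≤ M.map Ω0.val := by
      conv_lhs => rw [hT.hΩ0]
      rw [IntermediateField.adjoin_le_iff]
      rintro u ((rfl | rfl | rfl | rfl | rfl | rfl) | ⟨i, rfl⟩ | ⟨i, rfl⟩)
      · exact ⟨_, hNM e1, rfl⟩
      · exact ⟨⟨u, h2⟩, hSM _ (by rw [hS]; exact Or.inl (by simp)), rfl⟩
      · exact ⟨_, hNM e3, rfl⟩
      · exact ⟨_, hNM e4, rfl⟩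
      · exact ⟨⟨u, h5⟩, hSM _ (by rw [hS]; exact Or.inl (by simp)), rfl⟩
      · exact ⟨_, hNM e6, rfl⟩
      · exact ⟨⟨X i, h7 i⟩, hSM _ (by rw [hS]; exact Or.inr ⟨i, rfl⟩), rfl⟩
      · exact ⟨_, hNM (e8 i), rfl⟩
    refine top_unique fun u _ => ?_
    obtain ⟨u', hu', huu⟩ := hle u.2
    have : u' = u := Subtype.ext huu
    rw [← this]
    exact hu'
  have hbas : IsTranscendenceBasis K x := by
    rw [hind'.isTranscendenceBasis_iff_isAlgebraic]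
    exact Pool.Agent.H12.UT.isAlg_of_sq _ _ hgen hsq
  have := hbas.cardinalMk_eq_trdeg
  rw [← this]
  simp

theorem tor_of {K L : Type} [Field K] [CharZero K] [Field L] [Algebra K L] (P Q : K[X])
    (e c : Fin 5 → K) (c' p0 : K) (F Kb Ω0 Ω : IntermediateField K L) (s y z v : L)
    (X Y : Fin 5 → L) (X' Y' w : L) (hDRT : T_DRT) (hD : Dat P Q e c c' p0)
    (hT : Tow P Q e c c' F Kb Ω0 Ω s y z v X Y X' Y' w) :
    Pool.Agent.H12.UT.IsTorsorField P Q 1 Ω0 := by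
  classical
  have hv0 : v ≠ 0 := by
    have := hT.ind.ne_zero 2
    exact this
  have hs : ∀ x : L, x ∈ ({s, y, z, v, X', Y'} ∪ (Set.range X ∪ Set.range Y) : Set L) →
      x ∈ Ω0 := fun x hx => by
    rw [hT.hΩ0]
    exact IntermediateField.subset_adjoin _ _ hx
  have h1 : s ∈ Ω0 := hs s (Or.inl (by simp))
  have h2 : y ∈ Ω0 := hs y (Or.inl (by simp))
  have h3 : z ∈ Ω0 := hs z (Or.inl (by simp))
  have h4 : v ∈ Ω0 := hs v (Or.inl (by simp))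
  have h5 : X' ∈ Ω0 := hs X' (Or.inl (by simp))
  have h6 : Y' ∈ Ω0 := hs Y' (Or.inl (by simp))
  have h7 : ∀ i, X i ∈ Ω0 := fun i => hs _ (Or.inr (Or.inl ⟨i, rfl⟩))
  have h8 : ∀ i, Y i ∈ Ω0 := fun i => hs _ (Or.inr (Or.inr ⟨i, rfl⟩))
  obtain ⟨-, -, -, hrt⟩ := hDRT K P Q e c c' p0 hD
  have hrt' : ∀ a : K, (P * Q).eval a = 0 → ∃ i, e i = a := fun a ha => by
    have := hrt K a (by
      rw [Algebra.algebraMap_self, Polynomial.map_id, Polynomial.map_id]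
      exact ha)
    exact this
  have hP0 : P ≠ 0 := fun h0 => by
    have := hD.dP
    rw [h0, natDegree_zero] at this
    omega
  have hQ0 : Q ≠ 0 := fun h0 => by
    have := hD.dQ
    rw [h0, natDegree_zero] at this
    omega
  have hcop : IsCoprime P Q := hD.sep.isCoprime
  have hnot : ∀ a : K, P.eval a = 0 → Q.eval a = 0 → False := fun a ha hb => by
    obtain ⟨A, B, hAB⟩ := hcop
    have := congrArg (eval a) hAB
    rw [eval_add, eval_mul, eval_mul, ha, hb, eval_one, mul_zero, mul_zero, add_zero] at this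
    exact zero_ne_one this
  obtain ⟨XX, hXX⟩ : ∃ XX : K → Ω0, ∀ i, XX (e i) = ⟨X i, h7 i⟩ :=
    ⟨fun a => if h : ∃ i, e i = a then ⟨X h.choose, h7 _⟩ else 0, fun i => by
      have h : ∃ j, e j = e i := ⟨i, rfl⟩
      show (if h : ∃ j, e j = e i then (⟨X h.choose, h7 _⟩ : Ω0) else 0) = _
      rw [dif_pos h]
      have h9 : h.choose = i := hD.inj h.choose_spec
      exact Subtype.ext (congrArg X h9)⟩
  obtain ⟨YY, hYY⟩ : ∃ YY : K → Ω0, ∀ i, YY (e i) = ⟨Y i, h8 i⟩ :=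
    ⟨fun a => if h : ∃ i, e i = a then ⟨Y h.choose, h8 _⟩ else 0, fun i => by
      have h : ∃ j, e j = e i := ⟨i, rfl⟩
      show (if h : ∃ j, e j = e i then (⟨Y h.choose, h8 _⟩ : Ω0) else 0) = _
      rw [dif_pos h]
      have h9 : h.choose = i := hD.inj h.choose_spec
      exact Subtype.ext (congrArg Y h9)⟩
  have hae : ∀ R : K[X], ((aeval (⟨s, h1⟩ : Ω0) R : Ω0) : L) = aeval s R := fun R => by
    have := (Polynomial.aeval_algHom_apply Ω0.val (⟨s, h1⟩ : Ω0) R)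
    exact this.symm
  refine ⟨⟨s * v, Ω0.mul_mem h1 h4⟩, ⟨v, h4⟩, XX, YY, ⟨X', h5⟩, ⟨Y', h6⟩, ⟨y, h2⟩, ⟨z, h3⟩,
    ⟨fun a ha => ?_, fun a ha => ?_, ?_, ?_⟩, ?_, ?_⟩
  · obtain ⟨i, hi⟩ := hrt' a (by rw [eval_mul, IsRoot.def.1 ha, zero_mul])
    subst hi
    rw [hXX, hYY]
    refine Subtype.ext ?_
    have h9 := hT.eqs i
    rcases hD.rts i with ⟨-, h10⟩ | ⟨h10, -⟩
    · rw [h10] at h9
      exact h9
    · exact absurd h10 (fun h => hnot _ ha h)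
  · obtain ⟨i, hi⟩ := hrt' a (by rw [eval_mul, IsRoot.def.1 ha, mul_zero])
    subst hi
    rw [hXX, hYY]
    refine Subtype.ext ?_
    have h9 := hT.eqs i
    rcases hD.rts i with ⟨h10, -⟩ | ⟨-, h10⟩
    · exact absurd h10 (fun h => hnot _ h ha)
    · rw [h10] at h9
      exact h9
  · refine Subtype.ext ?_
    have h9 := hT.inf
    rw [hD.inf] at h9
    exact h9
  · have h9 : (⟨s * v, Ω0.mul_mem h1 h4⟩ : Ω0) / ⟨v, h4⟩ = ⟨s, h1⟩ := by
      refine Subtype.ext ?_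
      show s * v / v = s
      rw [mul_div_cancel_right₀ _ hv0]
    rw [h9]
    refine Subtype.ext ?_
    show y ^ 2 = ((aeval (⟨s, h1⟩ : Ω0) P : Ω0) : L) + ((aeval (⟨s, h1⟩ : Ω0) Q : Ω0) : L) * z ^ 2
    rw [hae, hae]
    exact hT.con
  · -- generation
    obtain ⟨M, hM⟩ : ∃ M : IntermediateField K Ω0, M = IntermediateField.adjoin K
      ({⟨s * v, Ω0.mul_mem h1 h4⟩, ⟨v, h4⟩, ⟨X', h5⟩, ⟨Y', h6⟩, ⟨y, h2⟩, ⟨z, h3⟩} ∪
        {w | ∃ e : K, (P * Q).IsRoot e ∧ (w = XX e ∨ w = YY e)}) := ⟨_, rfl⟩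
    rw [← hM]
    have hmem : ∀ x : Ω0, x ∈ ({⟨s * v, Ω0.mul_mem h1 h4⟩, ⟨v, h4⟩, ⟨X', h5⟩, ⟨Y', h6⟩, ⟨y, h2⟩,
        ⟨z, h3⟩} ∪ {w | ∃ e : K, (P * Q).IsRoot e ∧ (w = XX e ∨ w = YY e)} : Set Ω0) → x ∈ M :=
      fun x hx => by
        rw [hM]
        exact IntermediateField.subset_adjoin _ _ hx
    have hv : (⟨v, h4⟩ : Ω0) ∈ M := hmem _ (Or.inl (by simp))
    have hsv : (⟨s * v, Ω0.mul_mem h1 h4⟩ : Ω0) ∈ M := hmem _ (Or.inl (by simp))
    have hsM : (⟨s, h1⟩ : Ω0) ∈ M := by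
      have h9 : (⟨s * v, Ω0.mul_mem h1 h4⟩ : Ω0) / ⟨v, h4⟩ = ⟨s, h1⟩ := by
        refine Subtype.ext ?_
        show s * v / v = s
        rw [mul_div_cancel_right₀ _ hv0]
      rw [← h9]
      exact M.div_mem hsv hv
    have hroot : ∀ i, (P * Q).IsRoot (e i) := fun i => by
      rw [IsRoot.def, eval_mul]
      rcases hD.rts i with ⟨h10, -⟩ | ⟨h10, -⟩
      · rw [h10, zero_mul]
      · rw [h10, mul_zero]
    have hle : Ω0 ≤ M.map Ω0.val := by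
      conv_lhs => rw [hT.hΩ0]
      rw [IntermediateField.adjoin_le_iff]
      rintro x ((rfl | rfl | rfl | rfl | rfl | rfl) | ⟨i, rfl⟩ | ⟨i, rfl⟩)
      · exact ⟨_, hsM, rfl⟩
      · exact ⟨⟨x, h2⟩, hmem _ (Or.inl (by simp)), rfl⟩
      · exact ⟨⟨x, h3⟩, hmem _ (Or.inl (by simp)), rfl⟩
      · exact ⟨_, hv, rfl⟩
      · exact ⟨⟨x, h5⟩, hmem _ (Or.inl (by simp)), rfl⟩
      · exact ⟨⟨x, h6⟩, hmem _ (Or.inl (by simp)), rfl⟩
      · exact ⟨⟨X i, h7 i⟩, hmem _ (Or.inr ⟨e i, hroot i, Or.inl (hXX i).symm⟩), rfl⟩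
      · exact ⟨⟨Y i, h8 i⟩, hmem _ (Or.inr ⟨e i, hroot i, Or.inr (hYY i).symm⟩), rfl⟩
    refine top_unique fun x _ => ?_
    obtain ⟨x', hx', hxx⟩ := hle x.2
    have : x' = x := Subtype.ext hxx
    rw [← this]
    exact hx'
  · rw [natDegree_mul hP0 hQ0, hD.dP, hD.dQ, trd9 P Q e c c' p0 F Kb Ω0 Ω s y z v X Y X' Y' w hD hT]
    norm_num

end Pool.Agent.H17.UN
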