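import Pool.Agent.H17.UN.Tow

/-!
# MP_8b378c_ag: row MNI, the representation of a semi-invariant function is unique
-/

set_option autoImplicit false

namespace Pool.Agent.H17.UN

theorem pf_MNI : T_MNI := by
  intro K L _ _ _ F Kb r t ht f f' n n' h
  classical
  obtain ⟨N, hN1, hN2⟩ : ∃ N : ℕ, (∀ j, 0 ≤ n j + (N : ℤ)) ∧ ∀ j, 0 ≤ n' j + (N : ℤ) := by
    refine ⟨∑ j, ((n j).natAbs + (n' j).natAbs), fun j => ?_, fun j => ?_⟩
    · have h2 : (n j).natAbs + (n' j).natAbs ≤ ∑ j, ((n j).natAbs + (n' j).natAbs) :=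
        Finset.single_le_sum (f := fun j => (n j).natAbs + (n' j).natAbs)
          (fun _ _ => Nat.zero_le _) (Finset.mem_univ j)
      generalize (∑ j, ((n j).natAbs + (n' j).natAbs)) = M at h2
      omega
    · have h2 : (n j).natAbs + (n' j).natAbs ≤ ∑ j, ((n j).natAbs + (n' j).natAbs) :=
        Finset.single_le_sum (f := fun j => (n j).natAbs + (n' j).natAbs)
          (fun _ _ => Nat.zero_le _) (Finset.mem_univ j)
      generalize (∑ j, ((n j).natAbs + (n' j).natAbs)) = M at h2
      omega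
  have key : ∀ (g : (Fb F Kb)ˣ) (l : Fin r → ℤ), (∀ j, 0 ≤ l j + (N : ℤ)) →
      MvPolynomial.aeval (fun j => (t j : L))
        (MvPolynomial.monomial (Finsupp.equivFunOnFinite.symm (fun j => (l j + (N : ℤ)).toNat))
          (g : Fb F Kb)) = ((mon t g l : Lˣ) : L) * ∏ j, (t j : L) ^ N := by
    intro g l hl
    rw [MvPolynomial.aeval_monomial, Finsupp.prod_fintype _ _ (fun j => pow_zero _)]
    have h2 : ∀ j, (t j : L) ^ ((Finsupp.equivFunOnFinite.symm
        (fun j => (l j + (N : ℤ)).toNat)) j) = ((t j ^ l j : Lˣ) : L) * (t j : L) ^ N := by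
      intro j
      have h3 : (t j) ^ (l j + (N : ℤ)).toNat = t j ^ l j * t j ^ N := by
        rw [← zpow_natCast (t j) (l j + (N : ℤ)).toNat, Int.toNat_of_nonneg (hl j), zpow_add,
          zpow_natCast]
      show (t j : L) ^ (l j + (N : ℤ)).toNat = _
      rw [← Units.val_pow_eq_pow_val, h3, Units.val_mul, Units.val_pow_eq_pow_val]
    rw [Finset.prod_congr rfl (fun j _ => h2 j), Finset.prod_mul_distrib]
    unfold mon
    rw [Units.val_mul, Units.coe_prod, ← mul_assoc]
    rfl
  have h1 : MvPolynomial.monomial (Finsupp.equivFunOnFinite.symm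
        (fun j => (n j + (N : ℤ)).toNat)) (f : Fb F Kb) =
      MvPolynomial.monomial (Finsupp.equivFunOnFinite.symm
        (fun j => (n' j + (N : ℤ)).toNat)) (f' : Fb F Kb) := by
    apply ht
    show MvPolynomial.aeval _ _ = MvPolynomial.aeval _ _
    rw [key f n hN1, key f' n' hN2, h]
  rw [MvPolynomial.monomial_eq_monomial_iff] at h1
  rcases h1 with ⟨h1, h2⟩ | ⟨h1, -⟩
  · refine ⟨Units.ext h2, funext fun j => ?_⟩
    have h3 := DFunLike.congr_fun h1 j
    have h4 : (n j + (N : ℤ)).toNat = (n' j + (N : ℤ)).toNat := h3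
    have h5 := hN1 j
    have h6 := hN2 j
    omega
  · exact absurd h1 f.ne_zero

end Pool.Agent.H17.UN
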