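import Pool.Agent.H17.UN.Asm
import Pool.Agent.H17.UN.Brg
import Pool.Agent.H17.UN.MNI
import Pool.Agent.H12.UT.Fin3
import Pool.Agent.H62.UN.Asm
import Pool.Agent.H50.UN.AIG
import Pool.Agent.H12.UN.BCH
import Pool.Agent.H12.UN.CBK
import Pool.Agent.H14.UN.COC
import Pool.Agent.H42.UN.DRT
import Pool.Agent.H50.UN.DSE
import Pool.Agent.H55.UN.EVL
import Pool.Agent.H52.UN.EXS
import Pool.Agent.H13.UN.FBS
import Pool.Agent.H14.UN.FIL
import Pool.Agent.H52.UN.H90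
import Pool.Agent.H67.UN.IMG
import Pool.Agent.H36.UN.INV
import Pool.Agent.H62.UTO.KER
import Pool.Agent.H12.UN.LNK
import Pool.Agent.H52.UN.MLI
import Pool.Agent.H14.UN.PNT
import Pool.Agent.H5.UN.REG
import Pool.Agent.H11.UN.SCI
import Pool.Agent.H64.UN.SGM
import Pool.Agent.H62.UTO.SUR
import Pool.Agent.H80.UN.SY7
import Pool.Agent.H12.UN.TOW
import Pool.Agent.H42.UN.TRW
import Pool.Agent.H62.UTO.UTO
import Pool.Agent.H64.UN.VAL
import Pool.Agent.H14.UN.XAL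

/-!
# MP_8b378c_ag: from the surface to the counterexample
-/

set_option autoImplicit false

namespace Pool.Agent.H17.UN

open Polynomial

/-- The surface of `Pool.Agent.H12.UT` gives a counterexample. -/
theorem cex_of (G : Pool.Agent.H62.UN.Geometry) (K : Type) [Field K] [CharZero K]
    (P Q : K[X])
    (hC : Pool.Agent.H12.UT.ConicBundle P Q 1) (hN : Pool.Agent.H12.UT.NotSR P Q 1) :
    CounterexampleProj K := by
  have hEVA : T_EVA := G.EVA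
  have hMNI : T_MNI := pf_MNI
  have hIMG : T_IMG := Pool.Agent.H67.UN.pf_IMG
  have hVAL : T_VAL := Pool.Agent.H64.UN.pf_VAL
  have hSGM : T_SGM := Pool.Agent.H64.UN.pf_SGM hIMG hVAL
  have hMLI : T_MLI := Pool.Agent.H52.UN.pf_MLI
  have hEVL : T_EVL := Pool.Agent.H55.UN.pf_EVL
  have hUTO : T_UTO := Pool.Agent.H62.UTO.pf_UTO hIMG hVAL hMNI hMLI hSGM
  have hPNT : T_PNT := Pool.Agent.H14.UN.pf_PNT hVAL hSGM hEVL
  have hH90 : T_H90 := Pool.Agent.H52.UN.pf_H90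
  have hCOC : T_COC := Pool.Agent.H14.UN.pf_COC hIMG hVAL hMNI hSGM
  have hEXS : T_EXS := Pool.Agent.H52.UN.pf_EXS hIMG
  have hAIG : T_AIG := Pool.Agent.H50.UN.pf_AIG
  have hFIL : T_FIL := Pool.Agent.H14.UN.pf_FIL
  have hINV : T_INV := Pool.Agent.H36.UN.pf_INV
  have hDRT : T_DRT := Pool.Agent.H42.UN.pf_DRT
  have hDSE : T_DSE := Pool.Agent.H50.UN.pf_DSE G.VCL G.VUN G.VDS
  have hKER : T_KER := Pool.Agent.H62.UTO.pf_KER G.VCL G.VUN G.VDS G.VEX G.VEF G.HDV hDSE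
  have hSUR : T_SUR := Pool.Agent.H62.UTO.pf_SUR G.VCL G.VUN G.VDS G.VEX G.FSU G.HDV hDSE
  have hTOW : T_TOW := Pool.Agent.H12.UN.pf_TOW
  have hREG : T_REG := Pool.Agent.H5.UN.pf_REG Pool.Agent.H66.UT.pf_MON Pool.Agent.H5.UT.pf_AFF
    Pool.Agent.H81.UT.pf_SQ Pool.Agent.H5.UT.pf_EXT Pool.Agent.H5.UT.pf_JK
  have hCBK : T_CBK := Pool.Agent.H12.UN.pf_CBK
  have hCBB : T_CBB := Pool.Agent.H12.UN.pf_CBB
  have hBCH : T_BCH := Pool.Agent.H12.UN.pf_BCH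
  have hFBS : T_FBS := Pool.Agent.H13.UN.pf_FBS
  have hXAL : T_XAL := Pool.Agent.H14.UN.pf_XAL hDRT
  have hSY7 : T_SY7 := Pool.Agent.H80.UN.pf_SY7 G.VEX G.VUN G.VDS hKER G.SEC hDSE hXAL hFBS hCBB
    hIMG hVAL hDRT
  have hLNK : T_LNK := Pool.Agent.H12.UN.pf_LNK
  have hTRW : T_TRW := Pool.Agent.H42.UN.pf_TRW
  have hSCI : T_SCI := Pool.Agent.H11.UN.pf_SCI hFBS
  obtain ⟨e, c, c', p0, hD⟩ := dat_of P Q hC
  exact pf_ASM G.FGR G.FRA G.GLU G.SMO G.CPL G.TRD hEVA G.VEX G.FSU G.SEC G.HAR G.RAT hIMG hVAL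
    hUTO hPNT hH90 hCOC hEXS hAIG hFIL hINV hKER hSUR hTOW hREG hCBK hCBB hBCH hFBS hXAL hSY7
    hLNK hTRW hDRT hSCI K P Q e c c' p0 hD
    (fun L _ _ F Kb Ω0 Ω s y z v X Y X' Y' w hT hst =>
      hN.2 Ω0 (tor_of P Q e c c' p0 F Kb Ω0 Ω s y z v X Y X' Y' w hDRT hD hT) hst)

/-- The final statement, from the geometric part. -/
theorem final_of (G : Pool.Agent.H62.UN.Geometry) :
    ∃ (K : Type) (_ : Field K) (_ : Algebra ℚ K) (x y z t : K),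
      AlgebraicIndependent ℚ ![x, y, z, t] ∧ IntermediateField.adjoin ℚ {x, y, z, t} = ⊤ ∧
      CounterexampleProj K := by
  obtain ⟨K, _, _, x, y, z, t, h1, h2, h3, h4⟩ := Pool.Agent.H12.UT.final3
  have : CharZero K := charZero_of_injective_algebraMap (algebraMap ℚ K).injective
  exact ⟨K, inferInstance, inferInstance, x, y, z, t, h1, h2, cex_of G K _ _ h3 h4⟩

end Pool.Agent.H17.UN
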