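import Pool.Agent.H17.UN.Geom

/-!
# MP_8b378c_ag: the conic bundle surface is projective
-/

set_option autoImplicit false

namespace Pool.Agent.H17.UN

open Polynomial

/-- The variety is projective: it is complete, and its charts are standard affine charts of a
closed subvariety of a projective space, the closure of the point `(x 0 : x 1 : ... )` over `F`. -/
def Variety.Projective {k F : Type} [Field k] [Field F] [Algebra k F] (X : Variety k F) : Prop :=
  X.Complete ∧ ∃ (m : ℕ) (x : Fin m → F) (j : Fin X.n → Fin m), (∀ l, x l ≠ 0) ∧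
    ∀ i, X.A i = Algebra.adjoin k (Set.range fun l => x l / x (j i))

/-- There are a rational surface `X` over `K` (smooth, projective, geometrically integral, and
rational over the algebraic closure `Kb` of `K`) and a universal torsor with a `K`-point over `X`
which is not stably rational over `K`. -/
def CounterexampleProj (K : Type) [Field K] : Prop :=
  ∃ (L : Type) (_ : Field L) (_ : Algebra K L) (F Kb Ω : IntermediateField K L)
    (X : Variety K F) (T : UniversalTorsor X Kb Ω), Geo Kb Ω ∧
    X.Smooth ∧ X.Projective ∧ Algebra.trdeg K F = 2 ∧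
    (∃ a b : Fb F Kb, AlgebraicIndependent Kb ![a, b] ∧
      IntermediateField.adjoin Kb {a, b} = ⊤) ∧
    T.HasPoint ∧ ¬ StablyRational K Ω

theorem cb_ne {k F : Type} [Field k] [Field F] [Algebra k F] {P Q : k[X]} {s y z : F}
    (h : CB P Q s y z) : s ≠ 0 ∧ y ≠ 0 ∧ z ≠ 0 := by
  have hs : s ≠ 0 := h.ind.ne_zero 0
  have hz : z ≠ 0 := h.ind.ne_zero 1
  refine ⟨hs, fun hy => ?_, hz⟩
  -- a polynomial relation between `s` and `z`
  have h1 : (MvPolynomial.aeval ![s, z]) ((aeval (MvPolynomial.X 0 : MvPolynomial (Fin 2) k) P) +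
      (aeval (MvPolynomial.X 0 : MvPolynomial (Fin 2) k) Q) * MvPolynomial.X 1 ^ 2) = (0 : F) := by
    rw [map_add, map_mul, map_pow, ← Polynomial.aeval_algHom_apply,
      ← Polynomial.aeval_algHom_apply, MvPolynomial.aeval_X, MvPolynomial.aeval_X]
    have h2 := h.eq
    rw [hy] at h2
    simpa using h2.symm
  have h3 := (algebraicIndependent_iff.1 h.ind) _ h1
  -- put `z = 0`
  have h4 := congrArg (MvPolynomial.aeval ![(X : k[X]), 0]) h3
  rw [map_add, map_mul, map_pow, ← Polynomial.aeval_algHom_apply,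
    ← Polynomial.aeval_algHom_apply, MvPolynomial.aeval_X, MvPolynomial.aeval_X, map_zero] at h4
  have h5 : P = 0 := by simpa using h4
  have h6 := h.dP
  rw [h5, natDegree_zero] at h6
  omega

theorem proj_ch (k F : Type) [Field k] [Field F] [Algebra k F] (s y z : F) (hs : s ≠ 0)
    (hy : y ≠ 0) (hz : z ≠ 0) : ∃ (m : ℕ) (x : Fin m → F) (j : Fin 4 → Fin m), (∀ l, x l ≠ 0) ∧
    ∀ i, ch k s y z i = Algebra.adjoin k (Set.range fun l => x l / x (j i)) := by
  refine ⟨9, ![1, s, s ^ 2, s ^ 3, z, z * s, z * s ^ 2, y, y * s], ![0, 4, 3, 6], ?_, ?_⟩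
  · intro l
    fin_cases l <;> simp [hs, hy, hz]
  intro i
  have key : ∀ (S : Set F) (x : Fin 9 → F) (x0 : F) (_ : ∀ a ∈ S, a ∈ Algebra.adjoin k
      (Set.range fun l => x l / x0)) (_ : ∀ l, x l / x0 ∈ Algebra.adjoin k S),
      Algebra.adjoin k S = Algebra.adjoin k (Set.range fun l => x l / x0) := by
    intro S x x0 h1 h2
    refine le_antisymm (Algebra.adjoin_le h1) (Algebra.adjoin_le ?_)
    rintro _ ⟨l, rfl⟩
    exact h2 l
  fin_cases i
  · refine key {s, y, z} _ _ ?_ ?_
    · rintro a (rfl | rfl | rfl)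
      · exact Algebra.subset_adjoin ⟨1, by simp⟩
      · exact Algebra.subset_adjoin ⟨7, by simp⟩
      · exact Algebra.subset_adjoin ⟨4, by simp⟩
    · have g1 : s ∈ Algebra.adjoin k ({s, y, z} : Set F) := Algebra.subset_adjoin (by simp)
      have g2 : y ∈ Algebra.adjoin k ({s, y, z} : Set F) := Algebra.subset_adjoin (by simp)
      have g3 : z ∈ Algebra.adjoin k ({s, y, z} : Set F) := Algebra.subset_adjoin (by simp)
      have h : ∀ a b c : ℕ, s ^ a * y ^ b * z ^ c ∈ Algebra.adjoin k ({s, y, z} : Set F) :=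
        fun a b c => mul_mem (mul_mem (pow_mem g1 a) (pow_mem g2 b)) (pow_mem g3 c)
      intro l
      fin_cases l
      · simpa using h 0 0 0
      · simpa using h 1 0 0
      · simpa using h 2 0 0
      · simpa using h 3 0 0
      · simpa using h 0 0 1
      · simpa [mul_comm] using h 1 0 1
      · simpa [mul_comm] using h 2 0 1
      · simpa using h 0 1 0
      · simpa [mul_comm] using h 1 1 0
  · refine key {s, y / z, z⁻¹} _ _ ?_ ?_
    · rintro a (rfl | rfl | rfl)
      · exact Algebra.subset_adjoin ⟨5, by simp [hz]⟩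
      · exact Algebra.subset_adjoin ⟨7, by simp⟩
      · exact Algebra.subset_adjoin ⟨0, by simp⟩
    · have g1 : s ∈ Algebra.adjoin k ({s, y / z, z⁻¹} : Set F) := Algebra.subset_adjoin (by simp)
      have g2 : y / z ∈ Algebra.adjoin k ({s, y / z, z⁻¹} : Set F) :=
        Algebra.subset_adjoin (by simp)
      have g3 : z⁻¹ ∈ Algebra.adjoin k ({s, y / z, z⁻¹} : Set F) := Algebra.subset_adjoin (by simp)
      have h : ∀ (a b c : ℕ) (x : F), x = s ^ a * (y / z) ^ b * z⁻¹ ^ c →
          x ∈ Algebra.adjoin k ({s, y / z, z⁻¹} : Set F) := by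
        rintro a b c x rfl
        exact mul_mem (mul_mem (pow_mem g1 a) (pow_mem g2 b)) (pow_mem g3 c)
      intro l
      fin_cases l
      · exact h 0 0 1 _ (by simp)
      · exact h 1 0 1 _ (by simp [div_eq_mul_inv])
      · exact h 2 0 1 _ (by simp [div_eq_mul_inv])
      · exact h 3 0 1 _ (by simp [div_eq_mul_inv])
      · exact h 0 0 0 _ (by simp [hz])
      · exact h 1 0 0 _ (by simp [hz])
      · exact h 2 0 0 _ (by simp [hz])
      · exact h 0 1 0 _ (by simp)
      · exact h 1 1 0 _ (by simp; ring)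
  · refine key {s⁻¹, y / s ^ 2, z / s} _ _ ?_ ?_
    · rintro a (rfl | rfl | rfl)
      · exact Algebra.subset_adjoin ⟨2, by simp; field_simp⟩
      · exact Algebra.subset_adjoin ⟨8, by simp; field_simp⟩
      · exact Algebra.subset_adjoin ⟨6, by simp; field_simp⟩
    · have g1 : s⁻¹ ∈ Algebra.adjoin k ({s⁻¹, y / s ^ 2, z / s} : Set F) :=
        Algebra.subset_adjoin (by simp)
      have g2 : y / s ^ 2 ∈ Algebra.adjoin k ({s⁻¹, y / s ^ 2, z / s} : Set F) :=
        Algebra.subset_adjoin (by simp)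
      have g3 : z / s ∈ Algebra.adjoin k ({s⁻¹, y / s ^ 2, z / s} : Set F) :=
        Algebra.subset_adjoin (by simp)
      have h : ∀ (a b c : ℕ) (x : F), x = s⁻¹ ^ a * (y / s ^ 2) ^ b * (z / s) ^ c →
          x ∈ Algebra.adjoin k ({s⁻¹, y / s ^ 2, z / s} : Set F) := by
        rintro a b c x rfl
        exact mul_mem (mul_mem (pow_mem g1 a) (pow_mem g2 b)) (pow_mem g3 c)
      intro l
      fin_cases l
      · exact h 3 0 0 _ (by simp)
      · exact h 2 0 0 _ (by simp; field_simp)
      · exact h 1 0 0 _ (by simp; field_simp)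
      · exact h 0 0 0 _ (by simp [hs])
      · exact h 2 0 1 _ (by simp; field_simp)
      · exact h 1 0 1 _ (by simp; field_simp)
      · exact h 0 0 1 _ (by simp; field_simp)
      · exact h 1 1 0 _ (by simp; field_simp)
      · exact h 0 1 0 _ (by simp; field_simp)
  · refine key {s⁻¹, y / (s * z), s / z} _ _ ?_ ?_
    · rintro a (rfl | rfl | rfl)
      · exact Algebra.subset_adjoin ⟨5, by simp; field_simp⟩
      · exact Algebra.subset_adjoin ⟨8, by simp; field_simp⟩
      · exact Algebra.subset_adjoin ⟨3, by simp; field_simp⟩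
    · have g1 : s⁻¹ ∈ Algebra.adjoin k ({s⁻¹, y / (s * z), s / z} : Set F) :=
        Algebra.subset_adjoin (by simp)
      have g2 : y / (s * z) ∈ Algebra.adjoin k ({s⁻¹, y / (s * z), s / z} : Set F) :=
        Algebra.subset_adjoin (by simp)
      have g3 : s / z ∈ Algebra.adjoin k ({s⁻¹, y / (s * z), s / z} : Set F) :=
        Algebra.subset_adjoin (by simp)
      have h : ∀ (a b c : ℕ) (x : F), x = s⁻¹ ^ a * (y / (s * z)) ^ b * (s / z) ^ c →
          x ∈ Algebra.adjoin k ({s⁻¹, y / (s * z), s / z} : Set F) := by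
        rintro a b c x rfl
        exact mul_mem (mul_mem (pow_mem g1 a) (pow_mem g2 b)) (pow_mem g3 c)
      intro l
      fin_cases l
      · exact h 3 0 1 _ (by simp; field_simp)
      · exact h 2 0 1 _ (by simp; field_simp)
      · exact h 1 0 1 _ (by simp; field_simp)
      · exact h 0 0 1 _ (by simp; field_simp)
      · exact h 2 0 0 _ (by simp; field_simp)
      · exact h 1 0 0 _ (by simp; field_simp)
      · exact h 0 0 0 _ (by simp [hs, hz])
      · exact h 1 1 0 _ (by simp; field_simp)
      · exact h 0 1 0 _ (by simp; field_simp)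

theorem surf_proj (h1 : T_FGR) (h2 : T_FRA) (h3 : T_GLU) (h4 : T_CPL) {k F : Type} [Field k]
    [Field F] [Algebra k F] {P Q : k[X]} {s y z : F} (h : CB P Q s y z) :
    (surf h1 h2 h3 h).Projective := by
  obtain ⟨hs, hy, hz⟩ := cb_ne h
  exact ⟨h4 k F P Q s y z h, proj_ch k F s y z hs hy hz⟩

end Pool.Agent.H17.UN
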