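import Pool.Agent.H17.UN.Tow
import Pool.Agent.H17.UN.Proj

/-!
# MP_8b378c_ag: assembly
-/

set_option autoImplicit false

namespace Pool.Agent.H17.UN

open Polynomial

theorem dl_eq {K L : Type} [Field K] [Field L] [Algebra K L] {F Kb : IntermediateField K L}
    {m : ℕ} {A : Fin m → Subalgebra Kb (Fb F Kb)} (D v : PrimeDivisor A) [Decidable (v = D)] :
    dl D v = if v = D then 1 else 0 := by
  unfold dl
  split_ifs <;> rfl

theorem pf_ASM (hFGR : T_FGR) (hFRA : T_FRA) (hGLU : T_GLU) (hSMO : T_SMO) (hCPL : T_CPL)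
    (hTRD : T_TRD) (hEVA : T_EVA) (hVEX : T_VEX) (hFSU : T_FSU) (hSEC : T_SEC) (hHAR : T_HAR)
    (hRAT : T_RAT) (hIMG : T_IMG) (hVAL : T_VAL) (hUTO : T_UTO) (hPNT : T_PNT) (hH90 : T_H90)
    (hCOC : T_COC) (hEXS : T_EXS) (hAIG : T_AIG) (hFIL : T_FIL) (hINV : T_INV) (hKER : T_KER)
    (hSUR : T_SUR) (hTOW : T_TOW) (hREG : T_REG) (hCBK : T_CBK) (hCBB : T_CBB) (hBCH : T_BCH)
    (hFBS : T_FBS) (hXAL : T_XAL) (hSY7 : T_SY7) (hLNK : T_LNK) (hTRW : T_TRW) (hDRT : T_DRT)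
    (hSCI : T_SCI) (K : Type) [Field K] [CharZero K] (P Q : K[X]) (e c : Fin 5 → K) (c' p0 : K)
    (hD : Dat P Q e c c' p0)
    (hns : ∀ (L : Type) [Field L] [Algebra K L] (F Kb Ω0 Ω : IntermediateField K L)
      (s y z v : L) (X Y : Fin 5 → L) (X' Y' w : L),
      Tow P Q e c c' F Kb Ω0 Ω s y z v X Y X' Y' w → ¬ StablyRational K Ω0) :
    CounterexampleProj K := by
  classical
  obtain ⟨L, _, _, F, Kb, Ω0, Ω, s, y, z, v, X, Y, X', Y', w, hT⟩ := hTOW K P Q e c c' hD.one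
  have hreg := hREG K L P Q e c c' p0 F Kb Ω0 Ω s y z v X Y X' Y' w hD hT
  have hgeo : Geo Kb Ω := ⟨hT.alg, hT.cls, hT.sup, hreg⟩
  have : CharZero L := charZero_of_injective_algebraMap (algebraMap K L).injective
  have hcl : IsAlgClosed Kb := hT.cls
  -- coordinates in `F`
  have hsF : s ∈ F := by rw [hT.hF]; exact IntermediateField.subset_adjoin _ _ (by simp)
  have hyF : y ∈ F := by rw [hT.hF]; exact IntermediateField.subset_adjoin _ _ (by simp)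
  have hzF : z ∈ F := by rw [hT.hF]; exact IntermediateField.subset_adjoin _ _ (by simp)
  have hFFb : ∀ x ∈ F, x ∈ Fb F Kb := fun x hx => IntermediateField.subset_adjoin _ _ hx
  obtain ⟨s1, hs1⟩ : ∃ s1 : F, (s1 : L) = s := ⟨⟨s, hsF⟩, rfl⟩
  obtain ⟨y1, hy1⟩ : ∃ y1 : F, (y1 : L) = y := ⟨⟨y, hyF⟩, rfl⟩
  obtain ⟨z1, hz1⟩ : ∃ z1 : F, (z1 : L) = z := ⟨⟨z, hzF⟩, rfl⟩
  obtain ⟨s2, hs2⟩ : ∃ s2 : Fb F Kb, (s2 : L) = s := ⟨⟨s, hFFb _ hsF⟩, rfl⟩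
  obtain ⟨y2, hy2⟩ : ∃ y2 : Fb F Kb, (y2 : L) = y := ⟨⟨y, hFFb _ hyF⟩, rfl⟩
  obtain ⟨z2, hz2⟩ : ∃ z2 : Fb F Kb, (z2 : L) = z := ⟨⟨z, hFFb _ hzF⟩, rfl⟩
  have hCB := hCBK K L P Q e c c' p0 F Kb Ω0 Ω s y z v X Y X' Y' w hD hT s1 y1 z1 hs1 hy1 hz1
  have hCBb := hCBB K L P Q e c c' p0 F Kb Ω0 Ω s y z v X Y X' Y' w hD hT s2 y2 z2 hs2 hy2 hz2
  obtain ⟨P2, hP2⟩ : ∃ P2, P2 = P.map (algebraMap K Kb) := ⟨_, rfl⟩
  obtain ⟨Q2, hQ2⟩ : ∃ Q2, Q2 = Q.map (algebraMap K Kb) := ⟨_, rfl⟩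
  rw [← hP2, ← hQ2] at hCBb
  obtain ⟨hc0, hc'0, hQ1, hrt⟩ := hDRT K P Q e c c' p0 hD
  have hev : ∀ (R : K[X]) (a : K), (R.map (algebraMap K Kb)).eval (algebraMap K Kb a) =
      algebraMap K Kb (R.eval a) := fun R a => by
    rw [eval_map, eval₂_at_apply]
  have hev1 : ∀ (R : K[X]), (R.map (algebraMap K Kb)).eval 1 = algebraMap K Kb (R.eval 1) := by
    intro R
    have := hev R 1
    rwa [map_one] at this
  -- the surface
  obtain ⟨Xv, hXv⟩ : ∃ Xv : Variety K F, Xv = surf hFGR hFRA hGLU hCB := ⟨_, rfl⟩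
  have hn : Xv.n = 4 := by rw [hXv]; rfl
  -- square roots
  have hsqrt : ∀ a : Kb, ∃ b : Kb, b ^ 2 = a := fun a => by
    obtain ⟨b, hb⟩ := IsAlgClosed.exists_pow_nat_eq a (n := 2) (by norm_num)
    exact ⟨b, hb⟩
  choose r hr using fun i => hsqrt (algebraMap K Kb (c i))
  obtain ⟨ρ, hρ⟩ := hsqrt (algebraMap K Kb c')
  have hr' : ∀ i, (r i : L) ^ 2 = algebraMap K L (c i) := fun i => by
    have := congrArg (fun x : Kb => (x : L)) (hr i)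
    simpa using this
  have hρ' : (ρ : L) ^ 2 = algebraMap K L c' := by
    have := congrArg (fun x : Kb => (x : L)) hρ
    simpa using this
  -- the point
  have hp0 : (algebraMap K Kb p0) ^ 2 = P2.eval 1 := by
    rw [hP2, hev1, ← hD.pt, map_pow]
  have hp00 : algebraMap K Kb p0 ≠ 0 := by
    rw [Ne, map_eq_zero]
    exact hD.p0
  obtain ⟨φ, hφ⟩ := hEVA Kb (Fb F Kb) P2 Q2 s2 y2 z2 hCBb _ hp0
  -- the components
  have hlc : Q2.leadingCoeff = algebraMap K Kb c' := by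
    rw [hQ2, leadingCoeff_map, ← hD.inf]
  obtain ⟨hv1, hv2⟩ := hVEX Kb (Fb F Kb) P2 Q2 s2 y2 z2 hCBb
  have hcmp : ∀ i, ∃ D : PrimeDivisor (ch Kb s2 y2 z2), Cmp P2 Q2 (algebraMap K Kb (e i)) (r i) D := by
    intro i
    refine hv1 _ _ ?_
    rw [hP2, hQ2, hev, hev, hr]
    rcases hD.rts i with ⟨h1, h2⟩ | ⟨h1, h2⟩
    · right
      rw [h1, h2, map_zero]
      exact ⟨rfl, rfl⟩
    · left
      rw [h1, h2, map_zero]
      exact ⟨rfl, rfl⟩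
  choose D0 hD0 using hcmp
  obtain ⟨D5, hD5⟩ := hv2 ρ (by rw [hρ, hlc])
  obtain ⟨D6, hD6⟩ := hv2 (-ρ) (by rw [neg_sq, hρ, hlc])
  obtain ⟨D, hDD⟩ : ∃ D : Fin 7 → PrimeDivisor (ch Kb s2 y2 z2),
      D = ![D0 0, D0 1, D0 2, D0 3, D0 4, D5, D6] := ⟨_, rfl⟩
  have hFr : Fr P2 Q2 (fun i => algebraMap K Kb (e i)) r ρ D := by
    refine ⟨fun i j hij => hD.inj ((algebraMap K Kb).injective hij), fun a ha => ?_,
      fun i => ?_, ?_, ?_⟩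
    · rw [hP2, hQ2] at ha
      exact hrt Kb a ha
    · rw [hDD]
      fin_cases i
      · exact hD0 0
      · exact hD0 1
      · exact hD0 2
      · exact hD0 3
      · exact hD0 4
    · rw [hDD]
      exact hD5
    · rw [hDD]
      exact hD6
  -- the semi-invariant functions
  obtain ⟨hal, hge⟩ := hXAL K L P Q e c c' p0 F Kb Ω0 Ω s y z v X Y X' Y' w hD hT r ρ hr' hρ'
  have htne : ∀ j, (Fin.snoc (tt X Y X' Y' r ρ) w : Fin 8 → L) j ≠ 0 := fun j => by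
    have := hal.ne_zero j
    exact this
  have ht0 : ∀ j : Fin 7, tt X Y X' Y' r ρ j ≠ 0 := fun j => by
    have := htne (Fin.castSucc j)
    rwa [Fin.snoc_castSucc] at this
  have hw0 : w ≠ 0 := by
    have := htne (Fin.last 7)
    rwa [Fin.snoc_last] at this
  obtain ⟨t, ht⟩ : ∃ t : Fin 7 → Lˣ, ∀ j, (t j : L) = tt X Y X' Y' r ρ j :=
    ⟨fun j => Units.mk0 _ (ht0 j), fun j => rfl⟩
  obtain ⟨w1, hw1⟩ : ∃ w1 : Lˣ, (w1 : L) = w := ⟨Units.mk0 w hw0, rfl⟩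
  have htw : (fun j => ((Fin.snoc t w1 : Fin 8 → Lˣ) j : L)) = Fin.snoc (tt X Y X' Y' r ρ) w := by
    funext j
    refine Fin.lastCases ?_ (fun j => ?_) j
    · simp only [Fin.snoc_last]
      exact hw1
    · simp only [Fin.snoc_castSucc]
      exact ht j
  have hsys := hSY7 K L P Q e c c' p0 F Kb Ω0 Ω s y z v X Y X' Y' w hD hT r ρ hr' hρ' s2 y2 z2
    hs2 hy2 hz2 φ hφ D (by rw [← hP2, ← hQ2]; exact hFr) t ht
  have hbase := hFBS K L P Q e c c' p0 F Kb Ω0 Ω s y z v X Y X' Y' w hD hT s2 y2 z2 hs2 hy2 hz2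
    φ hφ
  -- the section
  have hQ21 : Q2.eval 1 ≠ 0 := by
    rw [hQ2, hev1, Ne, map_eq_zero]
    exact hQ1
  obtain ⟨D1, θ, hD1s, hD1o, hD1θ, hD1u⟩ := hSEC Kb (Fb F Kb) P2 Q2 s2 y2 z2 hCBb _ φ hp00 hp0 hφ
    hQ21
  obtain ⟨K1, hK1b, hK1f, hK1s, hK1x⟩ := hFIL K L Kb Ω hgeo (θ : L)
  have hsci : ∀ (σ : L ≃ₐ[Ω] L) (u u' : PrimeDivisor (ch Kb s2 y2 z2)), Img σ u u' →
      (Hor u → Hor u') ∧ (Sect u → Sect u') := fun σ u u' h =>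
    hSCI K L P Q e c c' p0 F Kb Ω0 Ω s y z v X Y X' Y' w hD hT s2 y2 z2 hs2 hy2 hz2 σ u u' h
  have himg := hIMG K L F Kb Ω 4 (ch Kb s2 y2 z2) 0 φ hbase
  obtain ⟨hval1, hval2, hval3, hval4, hval5⟩ := hVAL K L F Kb Ω 4 (ch Kb s2 y2 z2) 0 φ hbase
  -- `D1` is defined over `K1`
  have hD1K : ∀ σ : L ≃ₐ[Ω] L, (∀ a ∈ K1, σ a = a) → Img σ D1 D1 := by
    intro σ hσ
    obtain ⟨v', hv'⟩ := (himg σ D1).1
    have h1 : v' = D1 := by
      refine hD1u v' ((hsci σ D1 v' hv').1 hD1s.1) ?_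
      rw [hv' θ θ (hK1x σ hσ).symm]
      exact hD1θ
    rwa [h1] at hv'
  have hord1 : ∀ v' : PrimeDivisor (ch Kb s2 y2 z2), v'.ord 1 = 0 := fun v' => by
    have := v'.ord_mul 1 1 one_ne_zero one_ne_zero
    rw [mul_one] at this
    omega
  have hordi : ∀ (v' : PrimeDivisor (ch Kb s2 y2 z2)) (f : (Fb F Kb)ˣ),
      v'.ord ((f⁻¹ : (Fb F Kb)ˣ) : Fb F Kb) = - v'.ord (f : Fb F Kb) := fun v' f => by
    have h1 := v'.ord_mul (f : Fb F Kb) ((f⁻¹ : (Fb F Kb)ˣ) : Fb F Kb) f.ne_zero f⁻¹.ne_zero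
    rw [Units.mul_inv, hord1] at h1
    omega
  have hhar : ∀ f : Fb F Kb, f ≠ 0 → (∀ v' : PrimeDivisor (ch Kb s2 y2 z2), On φ v' →
      0 ≤ v'.ord f) → ∃ c : Kb, Val φ f c := by
    intro f hf h
    obtain ⟨a, b, hb, hab⟩ := hHAR Kb (Fb F Kb) P2 Q2 s2 y2 z2 hCBb _ φ hp00 hp0 hφ f hf h
    exact ⟨φ a / φ b, a, b, hb, hab, by rw [div_mul_cancel₀ _ hb]⟩
  have hunit : ∀ f : (Fb F Kb)ˣ, (∀ v' : PrimeDivisor (ch Kb s2 y2 z2), On φ v' →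
      v'.ord (f : Fb F Kb) = 0) → ∃ c : Kb, c ≠ 0 ∧ Val φ (f : Fb F Kb) c := by
    intro f hf
    obtain ⟨c1, hc1⟩ := hhar f f.ne_zero fun v' hv' => (hf v' hv').ge
    obtain ⟨c2, hc2⟩ := hhar ((f⁻¹ : (Fb F Kb)ˣ) : Fb F Kb) f⁻¹.ne_zero fun v' hv' => by
      rw [hordi, hf v' hv']
      simp
    have h1 := hval2 _ _ _ _ hc1 hc2
    rw [Units.mul_inv] at h1
    have h2 := hval4 1
    rw [map_one] at h2
    have h3 := hval1 _ _ _ h1 h2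
    exact ⟨c1, left_ne_zero_of_mul_eq_one h3, hc1⟩
  have hmk : ∀ f : Fb F Kb, f ≠ 0 → ∃ g : (Fb F Kb)ˣ, (g : Fb F Kb) = f := fun f hf =>
    ⟨Units.mk0 f hf, rfl⟩
  have hsec : ∀ (σ : L ≃ₐ[Ω] L) (v' : PrimeDivisor (ch Kb s2 y2 z2)), Img σ D1 v' →
      ∃ (f : (Fb F Kb)ˣ) (n : Fin 7 → ℤ), ∀ u, dl v' u - dl D1 u = dn D f n u := by
    intro σ v' hv'
    obtain ⟨f, n, l, hf, hl, h⟩ := hSUR Kb (Fb F Kb) P2 Q2 s2 y2 z2 hCBb _ r ρ D D1 hFr hD1s v'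
    obtain ⟨g, hg⟩ := hmk f hf
    refine ⟨g, n, fun u => ?_⟩
    have h1 := h u
    rw [hl ((hsci σ D1 v' hv').2 hD1s)] at h1
    rw [dl_eq, dl_eq, dn, hg]
    convert_to (if u = v' then (1 : ℤ) else 0) - (if u = D1 then 1 else 0) =
      u.ord f + ∑ j, if u = D j then n j else 0
    rw [h1]
    ring
  obtain ⟨cc, hcc1, hcc2, hcc3⟩ := hCOC K L F Kb Ω 4 (ch Kb s2 y2 z2) 0 φ 7 t D D1 K1 hbase hsys
    hD1o hunit hsec hD1K
  -- Hilbert 90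
  obtain ⟨M, hM⟩ : ∃ M : IntermediateField K L, M = ((IntermediateField.adjoin (Fb F Kb)
    (Set.range (fun j => (t j : L)))).restrictScalars Kb).restrictScalars K := ⟨_, rfl⟩
  have hFM : ∀ x : Fb F Kb, (x : L) ∈ IntermediateField.adjoin (Fb F Kb)
      (Set.range (fun j => (t j : L))) := fun x => IntermediateField.algebraMap_mem _ x
  have hKF : ∀ x ∈ Kb, x ∈ Fb F Kb := fun x hx =>
    IntermediateField.algebraMap_mem (Fb F Kb) (⟨x, hx⟩ : Kb)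
  have hmonM : ∀ (f : (Fb F Kb)ˣ) (n : Fin 7 → ℤ), ((mon t f n : Lˣ) : L) ∈
      IntermediateField.adjoin (Fb F Kb) (Set.range (fun j => (t j : L))) := by
    intro f n
    unfold mon
    rw [Units.val_mul, Units.coe_prod]
    refine mul_mem (hFM _) (prod_mem fun j _ => ?_)
    rw [Units.val_zpow_eq_zpow_val]
    have h1 : (t j : L) ∈ IntermediateField.adjoin (Fb F Kb)
        (Set.range (fun j => (t j : L))) := IntermediateField.subset_adjoin _ _ ⟨j, rfl⟩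
    exact zpow_mem h1 _
  obtain ⟨g, hgM, hg⟩ := hH90 K L Ω K1 M cc hK1f hK1s hcc1 hcc2
    (by
      intro x hx
      rw [hM]
      exact hFM (⟨x, hKF x (hK1b hx)⟩ : Fb F Kb))
    (by
      intro σ
      rw [hM]
      obtain ⟨f, n, h1, -⟩ := hcc3 σ
      rw [h1]
      exact hmonM f n)
  rw [hM] at hgM
  have hwΩ : w ∈ Ω := by
    rw [hT.hΩ]
    exact (le_sup_right : _ ≤ Ω0 ⊔ IntermediateField.adjoin K {w})
      (IntermediateField.subset_adjoin _ _ rfl)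
  have hσw : ∀ σ : L ≃ₐ[Ω] L, Units.map (σ : L →* L) (w1 / g) = cc σ * (w1 / g) := by
    intro σ
    have h1 : Units.map (σ : L →* L) w1 = w1 := by
      ext
      rw [Units.coe_map, hw1]
      exact ((hINV K L Kb Ω hgeo w).1.2 hwΩ) σ
    have h2 := hg σ
    rw [_root_.map_div, h1]
    have h3 : Units.map (σ : L →* L) g = g / cc σ := by
      rw [eq_div_iff_mul_eq']
      exact h2
    rw [h3, div_div_eq_mul_div, mul_comm w1, mul_div_assoc]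
  obtain ⟨hal8, hge8⟩ := hAIG (Fb F Kb) L 7 t w1 g hgM (by rw [htw]; exact hal)
  have hsys8 := hEXS K L F Kb Ω 4 (ch Kb s2 y2 z2) 0 φ 7 t D D1 (w1 / g) cc hbase hsys hD1o
    (by
      intro f n k h
      have h1 := hKER Kb (Fb F Kb) P2 Q2 s2 y2 z2 hCBb _ r ρ D D1 hFr hD1s (f : Fb F Kb) n k
        f.ne_zero (fun u => by
          have h2 := h u
          rw [dl_eq, dn, mul_ite, mul_one, mul_zero] at h2
          exact h2)
      exact h1.2.1)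
    hal8 hσw hcc3
  have hge8' : IntermediateField.adjoin (Fb F Kb)
      (Set.range (fun j => ((Fin.snoc t (w1 / g) : Fin 8 → Lˣ) j : L))) = ⊤ := by
    rw [hge8, htw]
    exact hge
  have hFΩ : F ≤ Ω := by
    rw [hT.hΩ, hT.hF]
    refine le_trans ?_ le_sup_left
    rw [hT.hΩ0]
    refine IntermediateField.adjoin_le_iff.2 ?_
    rintro x (rfl | rfl | rfl)
    · exact IntermediateField.subset_adjoin _ _ (Or.inl (by simp))
    · exact IntermediateField.subset_adjoin _ _ (Or.inl (by simp))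
    · exact IntermediateField.subset_adjoin _ _ (Or.inl (by simp))
  -- everything for the charts `ch`
  have hall : ∃ (i₀ : Fin 4) (φ' : ch Kb s2 y2 z2 i₀ →ₐ[Kb] Kb) (t' : Fin 8 → Lˣ)
      (D' : Fin 8 → PrimeDivisor (ch Kb s2 y2 z2)), Base Ω (ch Kb s2 y2 z2) i₀ φ' ∧
      Sys Ω (ch Kb s2 y2 z2) i₀ φ' t' D' ∧
      (∀ f : Fb F Kb, f ≠ 0 → {u : PrimeDivisor (ch Kb s2 y2 z2) | u.ord f ≠ 0}.Finite) ∧
      (∀ u : PrimeDivisor (ch Kb s2 y2 z2), ∃ (f : (Fb F Kb)ˣ) (n : Fin 8 → ℤ),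
        ∀ u', dl u u' = dn D' f n u') ∧
      IntermediateField.adjoin (Fb F Kb) (Set.range (fun j => (t' j : L))) = ⊤ ∧
      (∀ f : Fb F Kb, f ≠ 0 → (∀ u : PrimeDivisor (ch Kb s2 y2 z2), On φ' u → 0 ≤ u.ord f) →
        ∃ c : Kb, Val φ' f c) := by
    refine ⟨0, φ, Fin.snoc t (w1 / g), Fin.snoc D D1, hbase, hsys8, fun f hf =>
      hFSU Kb (Fb F Kb) P2 Q2 s2 y2 z2 hCBb f hf, fun u => ?_, hge8', hhar⟩
    obtain ⟨f, n, l, hf, -, h⟩ := hSUR Kb (Fb F Kb) P2 Q2 s2 y2 z2 hCBb _ r ρ D D1 hFr hD1s u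
    obtain ⟨f', hf'⟩ := hmk f hf
    refine ⟨f', Fin.snoc n l, fun u' => ?_⟩
    rw [dl_eq, dn, hf', h u', Fin.sum_univ_castSucc (n := 7)]
    simp only [Fin.snoc_castSucc, Fin.snoc_last]
    rw [add_assoc]
  obtain ⟨A, hA⟩ : ∃ A : Fin 4 → Subalgebra Kb (Fb F Kb), A = ch Kb s2 y2 z2 := ⟨_, rfl⟩
  rw [← hA] at hall
  have hXA : A = (surf hFGR hFRA hGLU hCB).base Kb := by
    rw [hA]
    funext i
    exact (hBCH K L F Kb (surf hFGR hFRA hGLU hCB) rfl s1 y1 z1 s2 y2 z2 (hs2.trans hs1.symm)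
      (hy2.trans hy1.symm) (hz2.trans hz1.symm) (fun i => rfl) i).symm
  rw [hXA] at hall
  obtain ⟨i₀, φ', t', D', h1, h2, h3, h4, h5, h6⟩ := hall
  obtain ⟨T, hTT⟩ := hUTO K L F Kb Ω (surf hFGR hFRA hGLU hCB) i₀ φ' 8 t' D' hFΩ h1 h2 h3 h4 h5
  have hpt := hPNT K L F Kb Ω (surf hFGR hFRA hGLU hCB) i₀ φ' 8 t' D' T h1 h2 hTT h6
    (fun c hc => (hINV K L Kb Ω hgeo c).2 c.2 hc)
  refine ⟨L, inferInstance, inferInstance, F, Kb, Ω, surf hFGR hFRA hGLU hCB, T, hgeo,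
    hSMO K F P Q s1 y1 z1 hCB, surf_proj hFGR hFRA hGLU hCPL hCB, hTRD K F P Q s1 y1 z1 hCB,
    hRAT Kb (Fb F Kb) P2 Q2 s2 y2 z2 hCBb, hpt, fun hst => ?_⟩
  exact hns L F Kb Ω0 Ω s y z v X Y X' Y' w hT (hLNK K L Ω0 Ω w hT.hΩ
    (hTRW K L P Q e c c' p0 F Kb Ω0 Ω s y z v X Y X' Y' w hD hT) hst)

end Pool.Agent.H17.UN
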