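import Mathlib

/-!
# MP_8b378c_ag: universal torsors over rational surfaces, definitions

Varieties are given by finite affine atlases inside their function fields.
-/

set_option autoImplicit false

namespace Pool.Agent.H17.UN

/-- An integral separated `k`-variety of finite type with function field `F`, given by a finite
affine atlas: the charts are the spectra of the finitely generated `k`-algebras `A i`, which have
the fraction field `F`, and the intersection of two charts is a principal open subset of both, with
the coordinate ring `A i ⊔ A j`. -/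
structure Variety (k F : Type) [Field k] [Field F] [Algebra k F] where
  n : ℕ
  A : Fin n → Subalgebra k F
  fg : ∀ i, (A i).FG
  frac : ∀ (i : Fin n) (x : F), ∃ a ∈ A i, ∃ b ∈ A i, b ≠ 0 ∧ x = a / b
  glue : ∀ i j : Fin n, ∃ a ∈ A i, a ≠ 0 ∧
    ∀ x : F, x ∈ A i ⊔ A j ↔ ∃ b ∈ A i, ∃ r : ℕ, x = b / a ^ r

/-- The variety is smooth over `k`. -/
def Variety.Smooth {k F : Type} [Field k] [Field F] [Algebra k F] (X : Variety k F) : Prop :=
  ∀ i, Algebra.Smooth k (X.A i)

/-- The variety is complete (proper over `k`): every valuation ring of `F` which contains `k`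
dominates a point of some chart. -/
def Variety.Complete {k F : Type} [Field k] [Field F] [Algebra k F] (X : Variety k F) : Prop :=
  ∀ O : ValuationSubring F, (∀ c : k, algebraMap k F c ∈ O) → ∃ i, ∀ a ∈ X.A i, a ∈ O

/-- The prime divisors of the normal variety with the charts `A i`: the normalised discrete
valuations of the function field whose valuation ring is a local ring of a chart. -/
structure PrimeDivisor {k F : Type} [Field k] [Field F] [Algebra k F] {n : ℕ}
    (A : Fin n → Subalgebra k F) where
  ord : F → ℤ
  ord_zero : ord 0 = 0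
  ord_mul : ∀ a b, a ≠ 0 → b ≠ 0 → ord (a * b) = ord a + ord b
  ord_add : ∀ a b, a ≠ 0 → b ≠ 0 → a + b ≠ 0 → min (ord a) (ord b) ≤ ord (a + b)
  norm : ∃ a, ord a = 1
  centre : ∃ i, (∀ a ∈ A i, 0 ≤ ord a) ∧
    ∀ x, x ≠ 0 → 0 ≤ ord x → ∃ a ∈ A i, ∃ b ∈ A i, b ≠ 0 ∧ ord b = 0 ∧ x = a / b

/-- The prime divisor meets the chart `i`. -/
def PrimeDivisor.Meets {k F : Type} [Field k] [Field F] [Algebra k F] {n : ℕ}
    {A : Fin n → Subalgebra k F} (v : PrimeDivisor A) (i : Fin n) : Prop := ∀ a ∈ A i, 0 ≤ v.ord a

/-- The divisors. -/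
abbrev Divisors {k F : Type} [Field k] [Field F] [Algebra k F] {n : ℕ}
    (A : Fin n → Subalgebra k F) : Type := PrimeDivisor A →₀ ℤ

/-- The field `Ω` is stably rational over `K`. -/
def StablyRational (K Ω : Type) [Field K] [Field Ω] [Algebra K Ω] : Prop :=
  ∃ m N : ℕ, Nonempty (FractionRing (MvPolynomial (Fin m) Ω) ≃ₐ[K]
    FractionRing (MvPolynomial (Fin N) K))

section

variable {K L : Type} [Field K] [Field L] [Algebra K L]

/-- `Kb` is an algebraic closure of `K`, `L` is the compositum of `Ω` and `Kb`, and `K` is
algebraically closed in `Ω`. So `Ω` is the function field of geometrically integral varieties over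
`K` (in characteristic zero), and `L` is the function field of these varieties over `Kb`; the group
`L ≃ₐ[Ω] L` is the Galois group of `Kb` over `K`. -/
structure Geo (Kb Ω : IntermediateField K L) : Prop where
  alg : ∀ x ∈ Kb, IsAlgebraic K x
  cls : IsAlgClosed Kb
  sup : Ω ⊔ Kb = ⊤
  inf : Ω ⊓ Kb = ⊥

/-- The compositum `F Kb`: the function field over `Kb`. -/
abbrev Fb (F Kb : IntermediateField K L) : IntermediateField Kb L :=
  IntermediateField.adjoin Kb (F : Set L)

variable {F : IntermediateField K L}

/-- The charts of the variety `X` over `Kb`: their coordinate rings are generated by `Kb` and the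
coordinate rings of the charts of `X`. -/
def Variety.base (X : Variety K F) (Kb : IntermediateField K L) (i : Fin X.n) :
    Subalgebra Kb (Fb F Kb) :=
  Algebra.adjoin Kb {a | ∃ b ∈ X.A i, (a : L) = (b : L)}

/-- The function field `Ω` and the charts of a universal torsor over `X`. Here `E` is the group of
the semi-invariant rational functions on the torsor over `Kb` (the non-zero homogeneous elements),
and `dv e` is the divisor of `e`, which is the inverse image of a divisor of `X` over `Kb`. Two
elements of `E` have the same weight if their quotient is in `F Kb`, so the group of the weights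
(the character module of the torus) is `E / (F Kb)ˣ`, and `dv` identifies it with the Picard group
of `X` over `Kb`, as a Galois module: the type of the torsor is the identity. -/
structure UniversalTorsor (X : Variety K F) (Kb Ω : IntermediateField K L) where
  E : Subgroup Lˣ
  le : F ≤ Ω
  mem : ∀ f : Lˣ, (f : L) ∈ Fb F Kb → f ∈ E
  gal : ∀ (σ : L ≃ₐ[Ω] L) (e : Lˣ), e ∈ E → Units.map (σ : L →* L) e ∈ E
  dv : E →* Multiplicative (Divisors (X.base Kb))
  dv_fun : ∀ (e : E) (h : ((e : Lˣ) : L) ∈ Fb F Kb) (v : PrimeDivisor (X.base Kb)),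
    (dv e).toAdd v = v.ord ⟨_, h⟩
  dv_ker : ∀ e : E, dv e = 1 → ((e : Lˣ) : L) ∈ Kb
  dv_sur : Function.Surjective dv
  dv_gal : ∀ (σ : L ≃ₐ[Ω] L) (v v' : PrimeDivisor (X.base Kb)),
    (∀ x y : Fb F Kb, (y : L) = σ x → v'.ord y = v.ord x) →
    ∀ e e' : E, ((e' : Lˣ) : L) = σ ((e : Lˣ) : L) → (dv e').toAdd v' = (dv e).toAdd v
  ind : ∀ s : Finset Lˣ, (∀ e ∈ s, e ∈ E) →
    (∀ e ∈ s, ∀ e' ∈ s, e ≠ e' → ((e / e' : Lˣ) : L) ∉ Fb F Kb) →
    LinearIndependent (Fb F Kb) (fun e : s => ((e : Lˣ) : L))
  gen : IntermediateField.adjoin K ((fun e : Lˣ => (e : L)) '' (E : Set Lˣ)) = ⊤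

/-- The coordinate ring over `Kb` of the universal torsor over the chart `i`: it is generated by
the semi-invariant functions whose divisor is effective on the chart. It is graded by the group of
the weights (`UniversalTorsor.ind`), and if the divisor of `e` is zero on the chart, then `e` is a
unit of this ring; so after shrinking the chart the ring becomes a Laurent polynomial ring. -/
def UniversalTorsor.Rb {X : Variety K F} {Kb Ω : IntermediateField K L}
    (T : UniversalTorsor X Kb Ω) (i : Fin X.n) : Subalgebra K L :=
  Algebra.adjoin K {x | ∃ e : T.E, x = ((e : Lˣ) : L) ∧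
    ∀ v : PrimeDivisor (X.base Kb), v.Meets i → 0 ≤ (T.dv e).toAdd v}

/-- The coordinate ring over `K` of the universal torsor over the chart `i`. -/
def UniversalTorsor.R {X : Variety K F} {Kb Ω : IntermediateField K L}
    (T : UniversalTorsor X Kb Ω) (i : Fin X.n) : Subalgebra K L := T.Rb i ⊓ Ω.toSubalgebra

/-- The universal torsor has a `K`-point. -/
def UniversalTorsor.HasPoint {X : Variety K F} {Kb Ω : IntermediateField K L}
    (T : UniversalTorsor X Kb Ω) : Prop := ∃ i, Nonempty (T.R i →ₐ[K] K)

end

/-- There is a universal torsor with a `K`-point over a smooth complete geometrically rational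
surface over `K` which is not stably rational over `K`. -/
def Counterexample (K : Type) [Field K] : Prop :=
  ∃ (L : Type) (_ : Field L) (_ : Algebra K L) (F Kb Ω : IntermediateField K L)
    (X : Variety K F) (T : UniversalTorsor X Kb Ω), Geo Kb Ω ∧
    X.Smooth ∧ X.Complete ∧ Algebra.trdeg K F = 2 ∧
    (∃ a b : Fb F Kb, AlgebraicIndependent Kb ![a, b] ∧
      IntermediateField.adjoin Kb {a, b} = ⊤) ∧
    T.HasPoint ∧ ¬ StablyRational K Ω

end Pool.Agent.H17.UN
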