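import Pool.Agent.H17.UN.Proj

/-!
# MP_8b378c_ag: universal torsors, the final form of the definitions

All fields lie in one field `L`: the function field `F` of the surface `X` (embedded by `ι`), the
algebraic closure `Kb` of the ground field `K`, the function field `Ω` of the torsor.
-/

set_option autoImplicit false

namespace Pool.Agent.H17.UF

open Pool.Agent.H17.UN (Variety StablyRational Geo)

section

variable {K F L : Type} [Field K] [Field F] [Field L] [Algebra K F] [Algebra K L]

/-- The compositum of `F` and `Kb`: the function field of `X` over `Kb`. -/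
def FB (ι : F →ₐ[K] L) (Kb : IntermediateField K L) : IntermediateField K L := Kb ⊔ ι.fieldRange

/-- The coordinate ring of the chart `i` of `X` over `Kb`: it is generated by `Kb` and the
coordinate ring of the chart of `X`. -/
def chart (X : Variety K F) (ι : F →ₐ[K] L) (Kb : IntermediateField K L) (i : Fin X.n) :
    Subalgebra K L := Kb.toSubalgebra ⊔ (X.A i).map ι

/-- The prime divisors of the smooth variety `X` over `Kb`: the normalised discrete valuations of
the function field `FB ι Kb` whose valuation ring is a local ring of a chart. (They are extended by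
zero to `L`.) -/
structure PrimeDivisor (X : Variety K F) (ι : F →ₐ[K] L) (Kb : IntermediateField K L) where
  ord : L → ℤ
  out : ∀ a, a ∉ FB ι Kb → ord a = 0
  zero : ord 0 = 0
  mul : ∀ a ∈ FB ι Kb, ∀ b ∈ FB ι Kb, a ≠ 0 → b ≠ 0 → ord (a * b) = ord a + ord b
  add : ∀ a ∈ FB ι Kb, ∀ b ∈ FB ι Kb, a ≠ 0 → b ≠ 0 → a + b ≠ 0 →
    min (ord a) (ord b) ≤ ord (a + b)
  norm : ∃ a, ord a = 1
  centre : ∃ i, (∀ a ∈ chart X ι Kb i, 0 ≤ ord a) ∧ ∀ x ∈ FB ι Kb, x ≠ 0 → 0 ≤ ord x →
    ∃ a ∈ chart X ι Kb i, ∃ b ∈ chart X ι Kb i, b ≠ 0 ∧ ord b = 0 ∧ x = a / b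

/-- The prime divisor meets the chart `i`. -/
def PrimeDivisor.Meets {X : Variety K F} {ι : F →ₐ[K] L} {Kb : IntermediateField K L}
    (v : PrimeDivisor X ι Kb) (i : Fin X.n) : Prop := ∀ a ∈ chart X ι Kb i, 0 ≤ v.ord a

/-- `σ` is an element of the Galois group of `L` over `Ω`, that is, of `Kb` over `K`. -/
def IsGal (Ω : IntermediateField K L) (σ : L → L) : Prop := ∃ τ : L ≃ₐ[Ω] L, ∀ x, σ x = τ x

/-- The function field `Ω` and the charts of a universal torsor over `X`. Here `E` is the group of
the semi-invariant rational functions on the torsor over `Kb` (the non-zero homogeneous elements),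
and `dv e`, for `e` in `E`, is the divisor of `e`, which is the inverse image of a divisor of `X`
over `Kb` (an integer function on the prime divisors with finite support). Two elements of `E` have
the same weight if their quotient is in `F Kb`, so the group of the weights (the character module
of the torus) is the quotient of `E` by `(F Kb)ˣ`, and `dv` identifies it with the Picard group of
`X` over `Kb`, as a Galois module: the type of the torsor is the identity. -/
structure UniversalTorsor (X : Variety K F) (ι : F →ₐ[K] L) (Kb Ω : IntermediateField K L) where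
  E : Set L
  dv : L → PrimeDivisor X ι Kb → ℤ
  le : ∀ x, ι x ∈ Ω
  zero : 0 ∉ E
  mul : ∀ e ∈ E, ∀ e' ∈ E, e * e' ∈ E
  inv : ∀ e ∈ E, e⁻¹ ∈ E
  mem : ∀ f ∈ FB ι Kb, f ≠ 0 → f ∈ E
  gal : ∀ σ, IsGal Ω σ → ∀ e ∈ E, σ e ∈ E
  dv_fin : ∀ e ∈ E, {v | dv e v ≠ 0}.Finite
  dv_mul : ∀ e ∈ E, ∀ e' ∈ E, ∀ v, dv (e * e') v = dv e v + dv e' v
  dv_fun : ∀ f ∈ FB ι Kb, f ≠ 0 → ∀ v, dv f v = v.ord f
  dv_ker : ∀ e ∈ E, (∀ v, dv e v = 0) → e ∈ Kb
  dv_sur : ∀ D : PrimeDivisor X ι Kb → ℤ, {v | D v ≠ 0}.Finite → ∃ e ∈ E, ∀ v, dv e v = D v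
  dv_gal : ∀ σ, IsGal Ω σ → ∀ v v' : PrimeDivisor X ι Kb,
    (∀ x ∈ FB ι Kb, v'.ord (σ x) = v.ord x) → ∀ e ∈ E, dv (σ e) v' = dv e v
  ind : ∀ (s : Finset L) (c : L → L), (∀ e ∈ s, e ∈ E ∧ c e ∈ FB ι Kb) →
    (∀ e ∈ s, ∀ e' ∈ s, e ≠ e' → e / e' ∉ FB ι Kb) →
    ∑ e ∈ s, c e * e = 0 → ∀ e ∈ s, c e = 0
  gen : IntermediateField.adjoin K E = ⊤

/-- The coordinate ring over `K` of the universal torsor over the chart `i`. The coordinate ring
over `Kb` is generated by the semi-invariant functions whose divisor is effective on the chart; it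
is graded by the group of the weights, and if the divisor of `e` is zero on the chart, then `e` is a
unit of this ring, so after shrinking the chart it becomes a Laurent polynomial ring. -/
def UniversalTorsor.R {X : Variety K F} {ι : F →ₐ[K] L} {Kb Ω : IntermediateField K L}
    (T : UniversalTorsor X ι Kb Ω) (i : Fin X.n) : Subalgebra K L :=
  Algebra.adjoin K {e | e ∈ T.E ∧ ∀ v : PrimeDivisor X ι Kb, v.Meets i → 0 ≤ T.dv e v} ⊓
    Ω.toSubalgebra

/-- The universal torsor has a `K`-point. -/
def UniversalTorsor.HasPoint {X : Variety K F} {ι : F →ₐ[K] L} {Kb Ω : IntermediateField K L}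
    (T : UniversalTorsor X ι Kb Ω) : Prop := ∃ i, Nonempty (T.R i →ₐ[K] K)

/-- The field `F Kb` is purely transcendental over `Kb`, of degree two. -/
def GeomRational (ι : F →ₐ[K] L) (Kb : IntermediateField K L) : Prop :=
  ∃ a b : L, AlgebraicIndependent Kb ![a, b] ∧ Kb ⊔ IntermediateField.adjoin K {a, b} = FB ι Kb

end

/-- There are a rational surface `X` over `K` (smooth, projective, geometrically integral, and
rational over the algebraic closure `Kb` of `K`) and a universal torsor with a `K`-point over `X`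
which is not stably rational over `K`. -/
def NegatedQ2 (K : Type) [Field K] : Prop :=
  ∃ (F L : Type) (_ : Field F) (_ : Field L) (_ : Algebra K F) (_ : Algebra K L)
    (ι : F →ₐ[K] L) (Kb Ω : IntermediateField K L) (X : Variety K F)
    (T : UniversalTorsor X ι Kb Ω), Geo Kb Ω ∧ X.Smooth ∧ X.Projective ∧
    Algebra.trdeg K F = 2 ∧ GeomRational ι Kb ∧ T.HasPoint ∧ ¬ StablyRational K Ω

end Pool.Agent.H17.UF
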