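import Pool.Agent.H17.UN.Defs

/-!
# MP_8b378c_ag: the conic bundle surface; facts of the geometric part (helper62)
-/

set_option autoImplicit false

namespace Pool.Agent.H17.UN

open Polynomial

/-- The conic bundle surface `y ^ 2 = P(s) + Q(s) z ^ 2` with function field `F`. -/
structure CB {k F : Type} [Field k] [Field F] [Algebra k F] (P Q : k[X]) (s y z : F) : Prop where
  eq : y ^ 2 = aeval s P + aeval s Q * z ^ 2
  ind : AlgebraicIndependent k ![s, z]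
  gen : IntermediateField.adjoin k {s, y, z} = ⊤
  dP : P.natDegree = 3
  dQ : Q.natDegree = 2
  sep : (P * Q).Separable

/-- The four charts of the surface. -/
noncomputable def ch (k : Type) {F : Type} [Field k] [Field F] [Algebra k F] (s y z : F) :
    Fin 4 → Subalgebra k F :=
  ![Algebra.adjoin k {s, y, z}, Algebra.adjoin k {s, y / z, z⁻¹},
    Algebra.adjoin k {s⁻¹, y / s ^ 2, z / s}, Algebra.adjoin k {s⁻¹, y / (s * z), s / z}]

/-! ### The surface is a smooth complete variety -/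

/-- FGR -/
def T_FGR : Prop := ∀ (k F : Type) [Field k] [Field F] [Algebra k F] (s y z : F) (i : Fin 4),
  (ch k s y z i).FG

/-- FRA -/
def T_FRA : Prop := ∀ (k F : Type) [Field k] [Field F] [Algebra k F] (P Q : k[X]) (s y z : F),
  CB P Q s y z → ∀ (i : Fin 4) (x : F), ∃ a ∈ ch k s y z i, ∃ b ∈ ch k s y z i, b ≠ 0 ∧ x = a / b

/-- GLU -/
def T_GLU : Prop := ∀ (k F : Type) [Field k] [Field F] [Algebra k F] (P Q : k[X]) (s y z : F),
  CB P Q s y z → ∀ i j : Fin 4, ∃ a ∈ ch k s y z i, a ≠ 0 ∧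
    ∀ x : F, x ∈ ch k s y z i ⊔ ch k s y z j ↔ ∃ b ∈ ch k s y z i, ∃ r : ℕ, x = b / a ^ r

/-- SMO -/
def T_SMO : Prop := ∀ (k F : Type) [Field k] [CharZero k] [Field F] [Algebra k F] (P Q : k[X])
  (s y z : F), CB P Q s y z → ∀ i : Fin 4, Algebra.Smooth k (ch k s y z i)

/-- CPL -/
def T_CPL : Prop := ∀ (k F : Type) [Field k] [Field F] [Algebra k F] (P Q : k[X]) (s y z : F),
  CB P Q s y z → ∀ O : ValuationSubring F, (∀ c : k, algebraMap k F c ∈ O) →
  ∃ i : Fin 4, ∀ a ∈ ch k s y z i, a ∈ O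

/-- TRD -/
def T_TRD : Prop := ∀ (k F : Type) [Field k] [Field F] [Algebra k F] (P Q : k[X]) (s y z : F),
  CB P Q s y z → Algebra.trdeg k F = 2

/-- The surface. -/
noncomputable def surf (h1 : T_FGR) (h2 : T_FRA) (h3 : T_GLU) {k F : Type} [Field k] [Field F]
    [Algebra k F] {P Q : k[X]} {s y z : F} (h : CB P Q s y z) : Variety k F :=
  ⟨4, ch k s y z, h1 k F s y z, h2 k F P Q s y z h, h3 k F P Q s y z h⟩

/-! ### Prime divisors over an algebraically closed field -/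

section

variable {k F : Type} [Field k] [Field F] [Algebra k F]

/-- `v` is horizontal: it is trivial on `k(s)`. -/
def Hor {s y z : F} (v : PrimeDivisor (ch k s y z)) : Prop :=
  ∀ a : k, v.ord (s - algebraMap k F a) = 0

/-- `v` is a section of the conic bundle: the residue field is `k(s)`. -/
def Sect {s y z : F} (v : PrimeDivisor (ch k s y z)) : Prop := Hor v ∧
  ∀ x : F, 0 ≤ v.ord x → ∃ a b : k[X], b ≠ 0 ∧ (x = aeval s a / aeval s b ∨
    0 < v.ord (x - aeval s a / aeval s b))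

/-- The component of the degenerate fibre over `a` with the sign `ρ`. -/
def Cmp (P Q : k[X]) {s y z : F} (a ρ : k) (v : PrimeDivisor (ch k s y z)) : Prop :=
  v.ord (s - algebraMap k F a) = 1 ∧
  ((Q.eval a = 0 ∧ ρ ^ 2 = P.eval a ∧ 0 < v.ord (y - algebraMap k F ρ)) ∨
   (P.eval a = 0 ∧ ρ ^ 2 = Q.eval a ∧ 0 < v.ord (y - algebraMap k F ρ * z)))

/-- The component of the fibre at infinity with the sign `ρ`. -/
def CmpInf (Q : k[X]) {s y z : F} (ρ : k) (v : PrimeDivisor (ch k s y z)) : Prop :=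
  v.ord s = -1 ∧ ρ ^ 2 = Q.leadingCoeff ∧ 0 < v.ord (y / (s * z) - algebraMap k F ρ)

/-- The point `M0 = (1, p0, 0)` of the first chart: `φ` is the evaluation. -/
def IsEv {s y z : F} (p0 : k) (φ : ch k s y z 0 →ₐ[k] k) : Prop :=
  ∀ a : ch k s y z 0, ((a : F) = s → φ a = 1) ∧ ((a : F) = y → φ a = p0) ∧
    ((a : F) = z → φ a = 0)

/-- `v` passes through the point. -/
def Thr {s y z : F} (φ : ch k s y z 0 →ₐ[k] k) (v : PrimeDivisor (ch k s y z)) : Prop :=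
  v.Meets 0 ∧ ∀ a : ch k s y z 0, φ a ≠ 0 → v.ord a = 0

end

/-- EVA: the point exists. -/
def T_EVA : Prop := ∀ (k F : Type) [Field k] [CharZero k] [Field F] [Algebra k F] (P Q : k[X])
  (s y z : F), CB P Q s y z → ∀ p0 : k, p0 ^ 2 = P.eval 1 → ∃ φ : ch k s y z 0 →ₐ[k] k, IsEv p0 φ

/-- VEX: the components exist. -/
def T_VEX : Prop := ∀ (k F : Type) [Field k] [IsAlgClosed k] [CharZero k] [Field F] [Algebra k F]
  (P Q : k[X]) (s y z : F), CB P Q s y z →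
  (∀ a ρ : k, ((Q.eval a = 0 ∧ ρ ^ 2 = P.eval a) ∨ (P.eval a = 0 ∧ ρ ^ 2 = Q.eval a)) →
    ∃ v : PrimeDivisor (ch k s y z), Cmp P Q a ρ v) ∧
  ∀ ρ : k, ρ ^ 2 = Q.leadingCoeff → ∃ v : PrimeDivisor (ch k s y z), CmpInf Q ρ v

/-- VUN: the components are unique. -/
def T_VUN : Prop := ∀ (k F : Type) [Field k] [IsAlgClosed k] [CharZero k] [Field F] [Algebra k F]
  (P Q : k[X]) (s y z : F), CB P Q s y z → ∀ v v' : PrimeDivisor (ch k s y z),
  (∀ a ρ : k, Cmp P Q a ρ v → Cmp P Q a ρ v' → v = v') ∧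
  (∀ ρ : k, CmpInf Q ρ v → CmpInf Q ρ v' → v = v')

/-- VDS: components with different signs are different. -/
def T_VDS : Prop := ∀ (k F : Type) [Field k] [IsAlgClosed k] [CharZero k] [Field F] [Algebra k F]
  (P Q : k[X]) (s y z : F), CB P Q s y z → ∀ v : PrimeDivisor (ch k s y z),
  (∀ a a' ρ ρ' : k, Cmp P Q a ρ v → Cmp P Q a' ρ' v → a = a' ∧ ρ = ρ') ∧
  (∀ ρ ρ' : k, CmpInf Q ρ v → CmpInf Q ρ' v → ρ = ρ') ∧
  (∀ a ρ ρ' : k, Cmp P Q a ρ v → ¬ CmpInf Q ρ' v)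

/-- VCL: classification. -/
def T_VCL : Prop := ∀ (k F : Type) [Field k] [IsAlgClosed k] [CharZero k] [Field F] [Algebra k F]
  (P Q : k[X]) (s y z : F), CB P Q s y z → ∀ v : PrimeDivisor (ch k s y z),
  Hor v ∨
  (∃ a : k, (P * Q).eval a ≠ 0 ∧ v.ord (s - algebraMap k F a) = 1 ∧
    ∀ v' : PrimeDivisor (ch k s y z), 0 < v'.ord (s - algebraMap k F a) → v' = v) ∨
  (∃ a ρ : k, Cmp P Q a ρ v) ∨ ∃ ρ : k, CmpInf Q ρ v

/-- VEF: over each `a` with `P(a) Q(a) ≠ 0` there is a prime divisor. -/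
def T_VEF : Prop := ∀ (k F : Type) [Field k] [IsAlgClosed k] [CharZero k] [Field F] [Algebra k F]
  (P Q : k[X]) (s y z : F), CB P Q s y z → ∀ a : k, (P * Q).eval a ≠ 0 →
  ∃ v : PrimeDivisor (ch k s y z), v.ord (s - algebraMap k F a) = 1

/-- FSU: finite support. -/
def T_FSU : Prop := ∀ (k F : Type) [Field k] [IsAlgClosed k] [CharZero k] [Field F] [Algebra k F]
  (P Q : k[X]) (s y z : F), CB P Q s y z → ∀ f : F, f ≠ 0 →
  {v : PrimeDivisor (ch k s y z) | v.ord f ≠ 0}.Finite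

/-- SEC: the section `D1`, the zero of `θ` on the generic fibre. -/
def T_SEC : Prop := ∀ (k F : Type) [Field k] [IsAlgClosed k] [CharZero k] [Field F] [Algebra k F]
  (P Q : k[X]) (s y z : F), CB P Q s y z → ∀ (p0 : k) (φ : ch k s y z 0 →ₐ[k] k), p0 ≠ 0 →
  p0 ^ 2 = P.eval 1 → IsEv p0 φ → Q.eval 1 ≠ 0 →
  ∃ (D1 : PrimeDivisor (ch k s y z)) (θ : F), Sect D1 ∧ ¬ Thr φ D1 ∧ 0 < D1.ord θ ∧
    ∀ v : PrimeDivisor (ch k s y z), Hor v → 0 < v.ord θ → v = D1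

/-- HDV: divisors on the generic fibre. -/
def T_HDV : Prop := ∀ (k F : Type) [Field k] [IsAlgClosed k] [CharZero k] [Field F] [Algebra k F]
  (P Q : k[X]) (s y z : F), CB P Q s y z → ∀ D1 : PrimeDivisor (ch k s y z), Sect D1 →
  (∀ v : PrimeDivisor (ch k s y z), Hor v → ∃ (f : F) (d : ℤ), f ≠ 0 ∧ (Sect v → d = 1) ∧
    (v ≠ D1 → v.ord f = 1 ∧ D1.ord f = -d) ∧
    ∀ v' : PrimeDivisor (ch k s y z), Hor v' → v' ≠ v → v' ≠ D1 → v'.ord f = 0) ∧
  ∀ f : F, f ≠ 0 → (∀ v : PrimeDivisor (ch k s y z), Hor v → v ≠ D1 → v.ord f = 0) →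
    ∃ a b : k[X], a ≠ 0 ∧ b ≠ 0 ∧ f = aeval s a / aeval s b

/-- HAR: functions without poles through the point are regular at the point. -/
def T_HAR : Prop := ∀ (k F : Type) [Field k] [IsAlgClosed k] [CharZero k] [Field F] [Algebra k F]
  (P Q : k[X]) (s y z : F), CB P Q s y z → ∀ (p0 : k) (φ : ch k s y z 0 →ₐ[k] k), p0 ≠ 0 →
  p0 ^ 2 = P.eval 1 → IsEv p0 φ → ∀ f : F, f ≠ 0 →
  (∀ v : PrimeDivisor (ch k s y z), Thr φ v → 0 ≤ v.ord f) →
  ∃ a b : ch k s y z 0, φ b ≠ 0 ∧ f * b = a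

/-- RAT: the surface is rational. -/
def T_RAT : Prop := ∀ (k F : Type) [Field k] [IsAlgClosed k] [CharZero k] [Field F] [Algebra k F]
  (P Q : k[X]) (s y z : F), CB P Q s y z →
  ∃ a b : F, AlgebraicIndependent k ![a, b] ∧ IntermediateField.adjoin k {a, b} = ⊤

end Pool.Agent.H17.UN
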