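import Pool.Agent.H17.UN.Geom

/-!
# MP_8b378c_ag: construction of the universal torsor; targets
-/

set_option autoImplicit false

namespace Pool.Agent.H17.UN

open Polynomial

/-! ### General part -/

section

variable {K L : Type} [Field K] [Field L] [Algebra K L] {F Kb Ω : IntermediateField K L} {m : ℕ}

/-- `v'` is the image of `v` under `σ`. -/
def Img {A : Fin m → Subalgebra Kb (Fb F Kb)} (σ : L ≃ₐ[Ω] L) (v v' : PrimeDivisor A) : Prop :=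
  ∀ x y : Fb F Kb, (y : L) = σ x → v'.ord y = v.ord x

/-- `f ∏ t_j ^ n_j` -/
noncomputable def mon {r : ℕ} (t : Fin r → Lˣ) (f : (Fb F Kb)ˣ) (n : Fin r → ℤ) : Lˣ :=
  Units.map (algebraMap (Fb F Kb) L : Fb F Kb →* L) f * ∏ j, t j ^ n j

open Classical in
/-- The multiplicity of `v` in the divisor `div f + ∑ n_j D_j`. -/
noncomputable def dn {A : Fin m → Subalgebra Kb (Fb F Kb)} {r : ℕ} (D : Fin r → PrimeDivisor A)
    (f : (Fb F Kb)ˣ) (n : Fin r → ℤ) (v : PrimeDivisor A) : ℤ :=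
  v.ord (f : Fb F Kb) + ∑ j, if v = D j then n j else 0

open Classical in
/-- The multiplicity of `v` in the prime divisor `D`. -/
noncomputable def dl {A : Fin m → Subalgebra Kb (Fb F Kb)} (D v : PrimeDivisor A) : ℤ :=
  if v = D then 1 else 0

/-- `f` is regular at the point `φ` of the chart `i₀`, with the value `c`. -/
def Val {A : Fin m → Subalgebra Kb (Fb F Kb)} {i₀ : Fin m} (φ : A i₀ →ₐ[Kb] Kb) (f : Fb F Kb)
    (c : Kb) : Prop := ∃ a b : A i₀, φ b ≠ 0 ∧ f * b = a ∧ φ a = c * φ b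

/-- `v` passes through the point `φ`. -/
def On {A : Fin m → Subalgebra Kb (Fb F Kb)} {i₀ : Fin m} (φ : A i₀ →ₐ[Kb] Kb)
    (v : PrimeDivisor A) : Prop :=
  v.Meets i₀ ∧ ∀ a : A i₀, φ a ≠ 0 → v.ord (a : Fb F Kb) = 0

/-- The charts and the point are stable under the Galois group. -/
structure Base (Ω : IntermediateField K L) (A : Fin m → Subalgebra Kb (Fb F Kb)) (i₀ : Fin m)
    (φ : A i₀ →ₐ[Kb] Kb) : Prop where
  kb : ∀ (σ : L ≃ₐ[Ω] L) (c : Kb), σ c ∈ Kb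
  fb : ∀ (σ : L ≃ₐ[Ω] L) (x : Fb F Kb), σ x ∈ Fb F Kb
  st : ∀ (σ : L ≃ₐ[Ω] L) (i : Fin m) (a a' : Fb F Kb), (a' : L) = σ a → a ∈ A i → a' ∈ A i
  eqv : ∀ (σ : L ≃ₐ[Ω] L) (a a' : A i₀), ((a' : Fb F Kb) : L) = σ (a : Fb F Kb) →
    ((φ a' : Kb) : L) = σ (φ a : Kb)

/-- A part of the universal torsor: the semi-invariant functions `f ∏ t_j ^ n_j`, where the divisor
of `t_j` is `D_j` and the value at the point is `1`. -/
structure Sys (Ω : IntermediateField K L) (A : Fin m → Subalgebra Kb (Fb F Kb)) (i₀ : Fin m)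
    (φ : A i₀ →ₐ[Kb] Kb) {r : ℕ} (t : Fin r → Lˣ) (D : Fin r → PrimeDivisor A) : Prop where
  alg : AlgebraicIndependent (Fb F Kb) (fun j => (t j : L))
  ker : ∀ (f : (Fb F Kb)ˣ) (n : Fin r → ℤ), (∀ v, dn D f n v = 0) →
    n = 0 ∧ ∃ c : Kb, (f : Fb F Kb) = algebraMap Kb (Fb F Kb) c
  off : ∀ j, ¬ On φ (D j)
  gal : ∀ (σ : L ≃ₐ[Ω] L) (j : Fin r), ∃ (f : (Fb F Kb)ˣ) (n : Fin r → ℤ),
    Units.map (σ : L →* L) (t j) = mon t f n ∧ Val φ (f : Fb F Kb) 1 ∧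
    ∀ v v' : PrimeDivisor A, Img σ v v' → dl (D j) v = dn D f n v'

end

/-- IMG: the action of the Galois group on the prime divisors. -/
def T_IMG : Prop := ∀ (K L : Type) [Field K] [Field L] [Algebra K L]
  (F Kb Ω : IntermediateField K L) (m : ℕ) (A : Fin m → Subalgebra Kb (Fb F Kb)) (i₀ : Fin m)
  (φ : A i₀ →ₐ[Kb] Kb), Base Ω A i₀ φ → ∀ (σ : L ≃ₐ[Ω] L) (v : PrimeDivisor A),
  (∃ v' : PrimeDivisor A, Img σ v v') ∧ (∃ v' : PrimeDivisor A, Img σ v' v) ∧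
  (∀ v' v'' : PrimeDivisor A, Img σ v v' → Img σ v v'' → v' = v'') ∧
  (∀ v' v'' : PrimeDivisor A, Img σ v' v → Img σ v'' v → v' = v'') ∧
  (∀ v' : PrimeDivisor A, Img σ v v' → Img σ⁻¹ v' v) ∧
  (∀ v' : PrimeDivisor A, Img σ v v' → On φ v → On φ v') ∧
  ∀ (τ : L ≃ₐ[Ω] L) (v' v'' : PrimeDivisor A), Img σ v v' → Img τ v' v'' → Img (τ * σ) v v''

/-- MNI: the representation of a semi-invariant function is unique. -/
def T_MNI : Prop := ∀ (K L : Type) [Field K] [Field L] [Algebra K L]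
  (F Kb : IntermediateField K L) (r : ℕ) (t : Fin r → Lˣ),
  AlgebraicIndependent (Fb F Kb) (fun j => (t j : L)) →
  ∀ (f f' : (Fb F Kb)ˣ) (n n' : Fin r → ℤ), mon t f n = mon t f' n' → f = f' ∧ n = n'

/-- MLI: semi-invariant functions of different weights are linearly independent. -/
def T_MLI : Prop := ∀ (K L : Type) [Field K] [Field L] [Algebra K L]
  (F Kb : IntermediateField K L) (r : ℕ) (t : Fin r → Lˣ),
  AlgebraicIndependent (Fb F Kb) (fun j => (t j : L)) → ∀ s : Finset Lˣ,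
  (∀ e ∈ s, ∃ (f : (Fb F Kb)ˣ) (n : Fin r → ℤ), e = mon t f n) →
  (∀ e ∈ s, ∀ e' ∈ s, e ≠ e' → ((e / e' : Lˣ) : L) ∉ Fb F Kb) →
  LinearIndependent (Fb F Kb) (fun e : s => ((e : Lˣ) : L))

/-- VAL: values. -/
def T_VAL : Prop := ∀ (K L : Type) [Field K] [Field L] [Algebra K L]
  (F Kb Ω : IntermediateField K L) (m : ℕ) (A : Fin m → Subalgebra Kb (Fb F Kb)) (i₀ : Fin m)
  (φ : A i₀ →ₐ[Kb] Kb), Base Ω A i₀ φ →
  (∀ (f : Fb F Kb) (c c' : Kb), Val φ f c → Val φ f c' → c = c') ∧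
  (∀ (f f' : Fb F Kb) (c c' : Kb), Val φ f c → Val φ f' c' → Val φ (f * f') (c * c')) ∧
  (∀ (f : Fb F Kb) (c : Kb), c ≠ 0 → Val φ f c → Val φ f⁻¹ c⁻¹) ∧
  (∀ c : Kb, Val φ (algebraMap Kb (Fb F Kb) c) c) ∧
  ∀ (σ : L ≃ₐ[Ω] L) (f f' : Fb F Kb) (c c' : Kb), (f' : L) = σ f → (c' : L) = σ c →
    Val φ f c → Val φ f' c'

/-- SGM: the Galois group acts on the semi-invariant functions. -/
def T_SGM : Prop := ∀ (K L : Type) [Field K] [Field L] [Algebra K L]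
  (F Kb Ω : IntermediateField K L) (m : ℕ) (A : Fin m → Subalgebra Kb (Fb F Kb)) (i₀ : Fin m)
  (φ : A i₀ →ₐ[Kb] Kb) (r : ℕ) (t : Fin r → Lˣ) (D : Fin r → PrimeDivisor A), Base Ω A i₀ φ →
  Sys Ω A i₀ φ t D → ∀ (σ : L ≃ₐ[Ω] L) (f : (Fb F Kb)ˣ) (n : Fin r → ℤ),
  ∃ (f' : (Fb F Kb)ˣ) (n' : Fin r → ℤ), Units.map (σ : L →* L) (mon t f n) = mon t f' n' ∧
    (∀ v v' : PrimeDivisor A, Img σ v v' → dn D f n v = dn D f' n' v') ∧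
    ∀ c c' : Kb, (c' : L) = σ c → Val φ (f : Fb F Kb) c → Val φ (f' : Fb F Kb) c'

/-- UTO: the universal torsor. -/
def T_UTO : Prop := ∀ (K L : Type) [Field K] [Field L] [Algebra K L]
  (F Kb Ω : IntermediateField K L) (X : Variety K F) (i₀ : Fin X.n)
  (φ : X.base Kb i₀ →ₐ[Kb] Kb) (r : ℕ) (t : Fin r → Lˣ)
  (D : Fin r → PrimeDivisor (X.base Kb)), F ≤ Ω → Base Ω (X.base Kb) i₀ φ →
  Sys Ω (X.base Kb) i₀ φ t D →
  (∀ f : Fb F Kb, f ≠ 0 → {v : PrimeDivisor (X.base Kb) | v.ord f ≠ 0}.Finite) →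
  (∀ v : PrimeDivisor (X.base Kb), ∃ (f : (Fb F Kb)ˣ) (n : Fin r → ℤ),
    ∀ v', dl v v' = dn D f n v') →
  IntermediateField.adjoin (Fb F Kb) (Set.range (fun j => (t j : L))) = ⊤ →
  ∃ T : UniversalTorsor X Kb Ω, ∀ e : T.E, ∃ (f : (Fb F Kb)ˣ) (n : Fin r → ℤ),
    (e : Lˣ) = mon t f n ∧ ∀ v, (T.dv e).toAdd v = dn D f n v

/-- EVL: evaluation of Laurent polynomials over the local ring of the point. -/
def T_EVL : Prop := ∀ (K L : Type) [Field K] [Field L] [Algebra K L]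
  (F Kb Ω : IntermediateField K L) (m : ℕ) (A : Fin m → Subalgebra Kb (Fb F Kb)) (i₀ : Fin m)
  (φ : A i₀ →ₐ[Kb] Kb) (r : ℕ) (t : Fin r → Lˣ), Base Ω A i₀ φ →
  AlgebraicIndependent (Fb F Kb) (fun j => (t j : L)) →
  ∃ (S : Subalgebra Kb L) (ψ : S →ₐ[Kb] Kb),
    ∀ (f : (Fb F Kb)ˣ) (n : Fin r → ℤ) (c : Kb), Val φ (f : Fb F Kb) c →
      ∃ h : ((mon t f n : Lˣ) : L) ∈ S, ψ ⟨_, h⟩ = c

/-- PNT: the point of the universal torsor. -/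
def T_PNT : Prop := ∀ (K L : Type) [Field K] [Field L] [Algebra K L]
  (F Kb Ω : IntermediateField K L) (X : Variety K F) (i₀ : Fin X.n)
  (φ : X.base Kb i₀ →ₐ[Kb] Kb) (r : ℕ) (t : Fin r → Lˣ)
  (D : Fin r → PrimeDivisor (X.base Kb)) (T : UniversalTorsor X Kb Ω),
  Base Ω (X.base Kb) i₀ φ → Sys Ω (X.base Kb) i₀ φ t D →
  (∀ e : T.E, ∃ (f : (Fb F Kb)ˣ) (n : Fin r → ℤ), (e : Lˣ) = mon t f n ∧
    ∀ v, (T.dv e).toAdd v = dn D f n v) →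
  (∀ f : Fb F Kb, f ≠ 0 → (∀ v, On φ v → 0 ≤ v.ord f) → ∃ c : Kb, Val φ f c) →
  (∀ c : Kb, (∀ σ : L ≃ₐ[Ω] L, σ c = c) → ∃ a : K, (c : L) = algebraMap K L a) →
  T.HasPoint

/-- H90: Hilbert 90 by a finite sum. -/
def T_H90 : Prop := ∀ (K L : Type) [Field K] [Field L] [Algebra K L]
  (Ω K1 M : IntermediateField K L) (c : (L ≃ₐ[Ω] L) → Lˣ), FiniteDimensional K K1 →
  (∀ (σ : L ≃ₐ[Ω] L) (a : L), a ∈ K1 → σ a ∈ K1) →
  (∀ σ τ : L ≃ₐ[Ω] L, c (σ * τ) = c σ * Units.map (σ : L →* L) (c τ)) →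
  (∀ σ τ : L ≃ₐ[Ω] L, (∀ a ∈ K1, σ a = τ a) → c σ = c τ) →
  K1 ≤ M → (∀ σ, (c σ : L) ∈ M) →
  ∃ g : Lˣ, (g : L) ∈ M ∧ ∀ σ : L ≃ₐ[Ω] L, Units.map (σ : L →* L) g * c σ = g

/-- COC: the cocycle of a section. -/
def T_COC : Prop := ∀ (K L : Type) [Field K] [Field L] [Algebra K L]
  (F Kb Ω : IntermediateField K L) (m : ℕ) (A : Fin m → Subalgebra Kb (Fb F Kb)) (i₀ : Fin m)
  (φ : A i₀ →ₐ[Kb] Kb) (r : ℕ) (t : Fin r → Lˣ) (D : Fin r → PrimeDivisor A)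
  (D1 : PrimeDivisor A) (K1 : IntermediateField K L), Base Ω A i₀ φ → Sys Ω A i₀ φ t D →
  ¬ On φ D1 →
  (∀ f : (Fb F Kb)ˣ, (∀ v, On φ v → v.ord (f : Fb F Kb) = 0) →
    ∃ c : Kb, c ≠ 0 ∧ Val φ (f : Fb F Kb) c) →
  (∀ (σ : L ≃ₐ[Ω] L) (v' : PrimeDivisor A), Img σ D1 v' → ∃ (f : (Fb F Kb)ˣ) (n : Fin r → ℤ),
    ∀ v, dl v' v - dl D1 v = dn D f n v) →
  (∀ σ : L ≃ₐ[Ω] L, (∀ a ∈ K1, σ a = a) → Img σ D1 D1) →
  ∃ c : (L ≃ₐ[Ω] L) → Lˣ, (∀ σ τ : L ≃ₐ[Ω] L, c (σ * τ) = c σ * Units.map (σ : L →* L) (c τ)) ∧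
    (∀ σ τ : L ≃ₐ[Ω] L, (∀ a ∈ K1, σ a = τ a) → c σ = c τ) ∧
    ∀ σ, ∃ (f : (Fb F Kb)ˣ) (n : Fin r → ℤ), c σ = mon t f n ∧ Val φ (f : Fb F Kb) 1 ∧
      ∀ v v' : PrimeDivisor A, Img σ D1 v' → dl v' v - dl D1 v = dn D f n v

/-- EXS: adding a section. -/
def T_EXS : Prop := ∀ (K L : Type) [Field K] [Field L] [Algebra K L]
  (F Kb Ω : IntermediateField K L) (m : ℕ) (A : Fin m → Subalgebra Kb (Fb F Kb)) (i₀ : Fin m)
  (φ : A i₀ →ₐ[Kb] Kb) (r : ℕ) (t : Fin r → Lˣ) (D : Fin r → PrimeDivisor A)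
  (D1 : PrimeDivisor A) (w : Lˣ) (c : (L ≃ₐ[Ω] L) → Lˣ), Base Ω A i₀ φ → Sys Ω A i₀ φ t D →
  ¬ On φ D1 →
  (∀ (f : (Fb F Kb)ˣ) (n : Fin r → ℤ) (k : ℤ), (∀ v, dn D f n v + k * dl D1 v = 0) → k = 0) →
  AlgebraicIndependent (Fb F Kb) (fun j => ((Fin.snoc t w : Fin (r + 1) → Lˣ) j : L)) →
  (∀ σ : L ≃ₐ[Ω] L, Units.map (σ : L →* L) w = c σ * w) →
  (∀ σ, ∃ (f : (Fb F Kb)ˣ) (n : Fin r → ℤ), c σ = mon t f n ∧ Val φ (f : Fb F Kb) 1 ∧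
      ∀ v v' : PrimeDivisor A, Img σ D1 v' → dl v' v - dl D1 v = dn D f n v) →
  Sys Ω A i₀ φ (Fin.snoc t w : Fin (r + 1) → Lˣ) (Fin.snoc D D1 : Fin (r + 1) → PrimeDivisor A)

/-- AIG: changing the last variable. -/
def T_AIG : Prop := ∀ (F L : Type) [Field F] [Field L] [Algebra F L] (r : ℕ) (t : Fin r → Lˣ)
  (w g : Lˣ), (g : L) ∈ IntermediateField.adjoin F (Set.range (fun j => (t j : L))) →
  AlgebraicIndependent F (fun j => ((Fin.snoc t w : Fin (r + 1) → Lˣ) j : L)) →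
  AlgebraicIndependent F (fun j => ((Fin.snoc t (w / g) : Fin (r + 1) → Lˣ) j : L)) ∧
  IntermediateField.adjoin F (Set.range
    (fun j => ((Fin.snoc t (w / g) : Fin (r + 1) → Lˣ) j : L))) =
  IntermediateField.adjoin F (Set.range (fun j => ((Fin.snoc t w : Fin (r + 1) → Lˣ) j : L)))

/-- FIL: finite level. -/
def T_FIL : Prop := ∀ (K L : Type) [Field K] [CharZero K] [Field L] [Algebra K L]
  (Kb Ω : IntermediateField K L), Geo Kb Ω → ∀ x : L, ∃ K1 : IntermediateField K L, K1 ≤ Kb ∧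
  FiniteDimensional K K1 ∧ (∀ (σ : L ≃ₐ[Ω] L) (a : L), a ∈ K1 → σ a ∈ K1) ∧
  ∀ σ : L ≃ₐ[Ω] L, (∀ a ∈ K1, σ a = a) → σ x = x

/-- INV: the invariants. -/
def T_INV : Prop := ∀ (K L : Type) [Field K] [CharZero K] [Field L] [Algebra K L]
  (Kb Ω : IntermediateField K L), Geo Kb Ω → ∀ x : L,
  ((∀ σ : L ≃ₐ[Ω] L, σ x = x) ↔ x ∈ Ω) ∧
  (x ∈ Kb → (∀ σ : L ≃ₐ[Ω] L, σ x = x) → ∃ a : K, x = algebraMap K L a)

end Pool.Agent.H17.UN
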