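import Pool.Agent.H17.UN.Tor

/-!
# MP_8b378c_ag: the tower of fields; targets
-/

set_option autoImplicit false

namespace Pool.Agent.H17.UN

open Polynomial

/-! ### Divisors of the conic bundle modulo the components of the degenerate fibres -/

/-- The degenerate fibres: `e i` are all roots of `P Q`, `D i` is the component over `e i` with the
sign `r i`, `D 5` and `D 6` are the components at infinity. -/
structure Fr {k F : Type} [Field k] [Field F] [Algebra k F] (P Q : k[X]) {s y z : F}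
    (e r : Fin 5 → k) (ρ : k) (D : Fin 7 → PrimeDivisor (ch k s y z)) : Prop where
  inj : Function.Injective e
  rts : ∀ a : k, (P * Q).eval a = 0 → ∃ i, e i = a
  cmp : ∀ i : Fin 5, Cmp P Q (e i) (r i) (D (Fin.castAdd 2 i))
  pos : CmpInf Q ρ (D 5)
  neg : CmpInf Q (-ρ) (D 6)

open Classical in
/-- KER -/
def T_KER : Prop := ∀ (k F : Type) [Field k] [IsAlgClosed k] [CharZero k] [Field F] [Algebra k F]
  (P Q : k[X]) (s y z : F), CB P Q s y z → ∀ (e r : Fin 5 → k) (ρ : k)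
  (D : Fin 7 → PrimeDivisor (ch k s y z)) (D1 : PrimeDivisor (ch k s y z)), Fr P Q e r ρ D →
  Sect D1 → ∀ (f : F) (n : Fin 7 → ℤ) (l : ℤ), f ≠ 0 →
  (∀ v : PrimeDivisor (ch k s y z), v.ord f + (∑ j, if v = D j then n j else 0) +
    (if v = D1 then l else 0) = 0) → n = 0 ∧ l = 0 ∧ ∃ c : k, f = algebraMap k F c

open Classical in
/-- SUR -/
def T_SUR : Prop := ∀ (k F : Type) [Field k] [IsAlgClosed k] [CharZero k] [Field F] [Algebra k F]
  (P Q : k[X]) (s y z : F), CB P Q s y z → ∀ (e r : Fin 5 → k) (ρ : k)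
  (D : Fin 7 → PrimeDivisor (ch k s y z)) (D1 : PrimeDivisor (ch k s y z)), Fr P Q e r ρ D →
  Sect D1 → ∀ v : PrimeDivisor (ch k s y z), ∃ (f : F) (n : Fin 7 → ℤ) (l : ℤ), f ≠ 0 ∧
  (Sect v → l = 1) ∧ ∀ v' : PrimeDivisor (ch k s y z), (if v' = v then 1 else 0) =
    v'.ord f + (∑ j, if v' = D j then n j else 0) + (if v' = D1 then l else 0)

open Classical in
/-- DSE: the divisor of `s - e i`. -/
def T_DSE : Prop := ∀ (k F : Type) [Field k] [IsAlgClosed k] [CharZero k] [Field F] [Algebra k F]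
  (P Q : k[X]) (s y z : F), CB P Q s y z → ∀ (e r : Fin 5 → k) (ρ : k)
  (D : Fin 7 → PrimeDivisor (ch k s y z)), Fr P Q e r ρ D →
  ∀ (i : Fin 5) (v' : PrimeDivisor (ch k s y z)), Cmp P Q (e i) (-r i) v' →
  ∀ v : PrimeDivisor (ch k s y z), v.ord (s - algebraMap k F (e i)) =
    (if v = D (Fin.castAdd 2 i) then 1 else 0) + (if v = v' then 1 else 0) -
    (if v = D 5 then 1 else 0) - (if v = D 6 then 1 else 0)

/-! ### The tower -/

/-- All fields of the construction, inside `L`. -/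
structure Tow {K L : Type} [Field K] [Field L] [Algebra K L] (P Q : K[X]) (e c : Fin 5 → K)
    (c' : K) (F Kb Ω0 Ω : IntermediateField K L) (s y z v : L) (X Y : Fin 5 → L) (X' Y' w : L) :
    Prop where
  alg : ∀ x ∈ Kb, IsAlgebraic K x
  cls : IsAlgClosed Kb
  sup : Ω ⊔ Kb = ⊤
  con : y ^ 2 = aeval s P + aeval s Q * z ^ 2
  eqs : ∀ i, s * v - algebraMap K L (e i) * v =
    algebraMap K L (1 - e i) * (X i ^ 2 - algebraMap K L (c i) * Y i ^ 2)
  inf : v = X' ^ 2 - algebraMap K L c' * Y' ^ 2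
  ind : AlgebraicIndependent K ![s, z, v, Y 0, Y 1, Y 2, Y 3, Y 4, Y', w]
  hF : F = IntermediateField.adjoin K {s, y, z}
  hΩ0 : Ω0 = IntermediateField.adjoin K ({s, y, z, v, X', Y'} ∪ (Set.range X ∪ Set.range Y))
  hΩ : Ω = Ω0 ⊔ IntermediateField.adjoin K {w}

/-- The data over `K`: `P Q` has the roots `e i`, `c i` is the residue at `e i`, and there is a
`K`-point above `s = 1`. -/
structure Dat {K : Type} [Field K] (P Q : K[X]) (e c : Fin 5 → K) (c' p0 : K) : Prop where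
  dP : P.natDegree = 3
  dQ : Q.natDegree = 2
  sep : (P * Q).Separable
  rts : ∀ i, (P.eval (e i) = 0 ∧ c i = Q.eval (e i)) ∨ (Q.eval (e i) = 0 ∧ c i = P.eval (e i))
  inj : Function.Injective e
  one : ∀ i, e i ≠ 1
  inf : c' = Q.leadingCoeff
  pt : p0 ^ 2 = P.eval 1
  p0 : p0 ≠ 0

/-- TOW: the tower exists. -/
def T_TOW : Prop := ∀ (K : Type) [Field K] [CharZero K] (P Q : K[X]) (e c : Fin 5 → K) (c' : K),
  (∀ i, e i ≠ 1) →
  ∃ (L : Type) (_ : Field L) (_ : Algebra K L) (F Kb Ω0 Ω : IntermediateField K L)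
    (s y z v : L) (X Y : Fin 5 → L) (X' Y' w : L), Tow P Q e c c' F Kb Ω0 Ω s y z v X Y X' Y' w

/-- REG: `K` is algebraically closed in `Ω`. -/
def T_REG : Prop := ∀ (K L : Type) [Field K] [CharZero K] [Field L] [Algebra K L] (P Q : K[X])
  (e c : Fin 5 → K) (c' p0 : K) (F Kb Ω0 Ω : IntermediateField K L) (s y z v : L)
  (X Y : Fin 5 → L) (X' Y' w : L), Dat P Q e c c' p0 →
  Tow P Q e c c' F Kb Ω0 Ω s y z v X Y X' Y' w → Ω ⊓ Kb = ⊥

/-- CBK: the surface over `K`. -/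
def T_CBK : Prop := ∀ (K L : Type) [Field K] [CharZero K] [Field L] [Algebra K L] (P Q : K[X])
  (e c : Fin 5 → K) (c' p0 : K) (F Kb Ω0 Ω : IntermediateField K L) (s y z v : L)
  (X Y : Fin 5 → L) (X' Y' w : L), Dat P Q e c c' p0 →
  Tow P Q e c c' F Kb Ω0 Ω s y z v X Y X' Y' w →
  ∀ s' y' z' : F, (s' : L) = s → (y' : L) = y → (z' : L) = z → CB P Q s' y' z'

/-- CBB: the surface over `Kb`. -/
def T_CBB : Prop := ∀ (K L : Type) [Field K] [CharZero K] [Field L] [Algebra K L] (P Q : K[X])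
  (e c : Fin 5 → K) (c' p0 : K) (F Kb Ω0 Ω : IntermediateField K L) (s y z v : L)
  (X Y : Fin 5 → L) (X' Y' w : L), Dat P Q e c c' p0 →
  Tow P Q e c c' F Kb Ω0 Ω s y z v X Y X' Y' w →
  ∀ s' y' z' : Fb F Kb, (s' : L) = s → (y' : L) = y → (z' : L) = z →
    CB (P.map (algebraMap K Kb)) (Q.map (algebraMap K Kb)) s' y' z'

/-- BCH: the base change of the charts. -/
def T_BCH : Prop := ∀ (K L : Type) [Field K] [Field L] [Algebra K L]
  (F Kb : IntermediateField K L) (X : Variety K F) (hn : X.n = 4) (s y z : F)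
  (s' y' z' : Fb F Kb), (s' : L) = s → (y' : L) = y → (z' : L) = z →
  (∀ i : Fin 4, X.A (Fin.cast hn.symm i) = ch K s y z i) →
  ∀ i : Fin 4, X.base Kb (Fin.cast hn.symm i) = ch Kb s' y' z' i

/-- FBS: Galois stability of the charts and of the point. -/
def T_FBS : Prop := ∀ (K L : Type) [Field K] [CharZero K] [Field L] [Algebra K L] (P Q : K[X])
  (e c : Fin 5 → K) (c' p0 : K) (F Kb Ω0 Ω : IntermediateField K L) (s y z v : L)
  (X Y : Fin 5 → L) (X' Y' w : L), Dat P Q e c c' p0 →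
  Tow P Q e c c' F Kb Ω0 Ω s y z v X Y X' Y' w →
  ∀ s' y' z' : Fb F Kb, (s' : L) = s → (y' : L) = y → (z' : L) = z →
    ∀ φ : ch Kb s' y' z' 0 →ₐ[Kb] Kb, IsEv (algebraMap K Kb p0) φ →
    Base Ω (ch Kb s' y' z') 0 φ

/-- The semi-invariant functions. -/
noncomputable def tt {K L : Type} [Field K] [Field L] [Algebra K L]
    {Kb : IntermediateField K L} (X Y : Fin 5 → L) (X' Y' : L) (r : Fin 5 → Kb) (ρ : Kb) :
    Fin 7 → L :=
  ![X 0 + r 0 * Y 0, X 1 + r 1 * Y 1, X 2 + r 2 * Y 2, X 3 + r 3 * Y 3, X 4 + r 4 * Y 4,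
    X' + ρ * Y', X' - ρ * Y']

/-- XAL: the semi-invariant functions are algebraically independent and generate `L`. -/
def T_XAL : Prop := ∀ (K L : Type) [Field K] [CharZero K] [Field L] [Algebra K L] (P Q : K[X])
  (e c : Fin 5 → K) (c' p0 : K) (F Kb Ω0 Ω : IntermediateField K L) (s y z v : L)
  (X Y : Fin 5 → L) (X' Y' w : L), Dat P Q e c c' p0 →
  Tow P Q e c c' F Kb Ω0 Ω s y z v X Y X' Y' w →
  ∀ (r : Fin 5 → Kb) (ρ : Kb), (∀ i, (r i : L) ^ 2 = algebraMap K L (c i)) →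
    (ρ : L) ^ 2 = algebraMap K L c' →
    AlgebraicIndependent (Fb F Kb) (Fin.snoc (tt X Y X' Y' r ρ) w : Fin 8 → L) ∧
    IntermediateField.adjoin (Fb F Kb)
      (Set.range (Fin.snoc (tt X Y X' Y' r ρ) w : Fin 8 → L)) = ⊤

/-- SY7: the components of the degenerate fibres. -/
def T_SY7 : Prop := ∀ (K L : Type) [Field K] [CharZero K] [Field L] [Algebra K L] (P Q : K[X])
  (e c : Fin 5 → K) (c' p0 : K) (F Kb Ω0 Ω : IntermediateField K L) (s y z v : L)
  (X Y : Fin 5 → L) (X' Y' w : L), Dat P Q e c c' p0 →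
  Tow P Q e c c' F Kb Ω0 Ω s y z v X Y X' Y' w →
  ∀ (r : Fin 5 → Kb) (ρ : Kb), (∀ i, (r i : L) ^ 2 = algebraMap K L (c i)) →
    (ρ : L) ^ 2 = algebraMap K L c' →
  ∀ s' y' z' : Fb F Kb, (s' : L) = s → (y' : L) = y → (z' : L) = z →
  ∀ φ : ch Kb s' y' z' 0 →ₐ[Kb] Kb, IsEv (algebraMap K Kb p0) φ →
  ∀ D : Fin 7 → PrimeDivisor (ch Kb s' y' z'),
    Fr (P.map (algebraMap K Kb)) (Q.map (algebraMap K Kb)) (fun i => algebraMap K Kb (e i)) r ρ D →
    ∀ t : Fin 7 → Lˣ, (∀ j, (t j : L) = tt X Y X' Y' r ρ j) →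
    Sys Ω (ch Kb s' y' z') 0 φ t D

/-- LNK: stable rationality and the last variable. -/
def T_LNK : Prop := ∀ (K L : Type) [Field K] [Field L] [Algebra K L]
  (Ω0 Ω : IntermediateField K L) (w : L), Ω = Ω0 ⊔ IntermediateField.adjoin K {w} →
  Transcendental Ω0 w → StablyRational K Ω → StablyRational K Ω0

/-- TRW: the last variable is transcendental. -/
def T_TRW : Prop := ∀ (K L : Type) [Field K] [CharZero K] [Field L] [Algebra K L] (P Q : K[X])
  (e c : Fin 5 → K) (c' p0 : K) (F Kb Ω0 Ω : IntermediateField K L) (s y z v : L)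
  (X Y : Fin 5 → L) (X' Y' w : L), Dat P Q e c c' p0 →
  Tow P Q e c c' F Kb Ω0 Ω s y z v X Y X' Y' w → Transcendental Ω0 w

/-- DRT: the roots of `P Q`. -/
def T_DRT : Prop := ∀ (K : Type) [Field K] [CharZero K] (P Q : K[X]) (e c : Fin 5 → K)
  (c' p0 : K), Dat P Q e c c' p0 → (∀ i, c i ≠ 0) ∧ c' ≠ 0 ∧ Q.eval 1 ≠ 0 ∧
  ∀ (k : Type) [Field k] [Algebra K k] (a : k),
    ((P.map (algebraMap K k)) * (Q.map (algebraMap K k))).eval a = 0 →
    ∃ i, algebraMap K k (e i) = a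

/-- SCI: the image of a section is a section. -/
def T_SCI : Prop := ∀ (K L : Type) [Field K] [CharZero K] [Field L] [Algebra K L] (P Q : K[X])
  (e c : Fin 5 → K) (c' p0 : K) (F Kb Ω0 Ω : IntermediateField K L) (s y z v : L)
  (X Y : Fin 5 → L) (X' Y' w : L), Dat P Q e c c' p0 →
  Tow P Q e c c' F Kb Ω0 Ω s y z v X Y X' Y' w →
  ∀ s' y' z' : Fb F Kb, (s' : L) = s → (y' : L) = y → (z' : L) = z →
    ∀ (σ : L ≃ₐ[Ω] L) (v v' : PrimeDivisor (ch Kb s' y' z')), Img σ v v' →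
    (Hor v → Hor v') ∧ (Sect v → Sect v')

end Pool.Agent.H17.UN
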